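import Mathlib

/-!
# Multiplicative functions with small partial sums: the excess of `p |f(p)|` over `1`
-/

set_option autoImplicit false

open Finset Filter Topology

namespace Pool.Agent.X301.MO

/-- the partial sums at the integers -/
noncomputable def SS (f : ℕ → ℂ) (n : ℕ) : ℂ := ∑ m ∈ Icc 1 n, f m

theorem SS_succ (f : ℕ → ℂ) (n : ℕ) : SS f (n + 1) = SS f n + f (n + 1) := by
  unfold SS
  rw [Finset.sum_Icc_succ_top (by omega)]

/-- the growth function `exp ((log n) ^ β)` -/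
noncomputable def hh (β : ℝ) (x : ℝ) : ℝ := Real.exp (Real.log x ^ β)

theorem one_le_hh (β : ℝ) {x : ℝ} (hx : 1 ≤ x) : 1 ≤ hh β x := by
  unfold hh
  rw [← Real.exp_zero]
  exact Real.exp_le_exp.2 (Real.rpow_nonneg (Real.log_nonneg hx) _)

theorem hh_mono {β : ℝ} (hβ : 0 ≤ β) {x y : ℝ} (hx : 1 ≤ x) (hxy : x ≤ y) : hh β x ≤ hh β y := by
  unfold hh
  apply Real.exp_le_exp.2
  exact Real.rpow_le_rpow (Real.log_nonneg hx) (Real.log_le_log (by linarith) hxy) hβ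

theorem term_bound {f : ℕ → ℂ} (f1 : f 1 = 1) {β B : ℝ} (hβ : 0 ≤ β)
    (hB : ∀ n : ℕ, 1 ≤ n → ‖SS f n‖ ≤ B * (hh β n / n)) (n : ℕ) (hn : 1 ≤ n) :
    (n : ℝ) * ‖f n‖ ≤ 3 * B * hh β n := by
  have hB0 : 0 ≤ B := by
    have h := hB 1 le_rfl
    have h1 : 0 ≤ ‖SS f 1‖ := norm_nonneg _
    have h2 : 0 < hh β (1 : ℕ) / ((1 : ℕ) : ℝ) := by
      have := one_le_hh β (x := ((1 : ℕ) : ℝ)) (by norm_num)
      have h3 : (0 : ℝ) < ((1 : ℕ) : ℝ) := by norm_num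
      positivity
    by_contra hneg
    push Not at hneg
    have : B * (hh β (1 : ℕ) / ((1 : ℕ) : ℝ)) < 0 := mul_neg_of_neg_of_pos hneg h2
    linarith
  obtain ⟨m, rfl⟩ : ∃ m, n = m + 1 := ⟨n - 1, by omega⟩
  have hn0 : (0 : ℝ) < ((m + 1 : ℕ) : ℝ) := by positivity
  have h1n : (1 : ℝ) ≤ ((m + 1 : ℕ) : ℝ) := by exact_mod_cast hn
  have hh1 := one_le_hh β h1n
  have hS := hB (m + 1) hn
  have e1 : ((m + 1 : ℕ) : ℝ) * ‖SS f (m + 1)‖ ≤ B * hh β ((m + 1 : ℕ) : ℝ) := by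
    calc ((m + 1 : ℕ) : ℝ) * ‖SS f (m + 1)‖
        ≤ ((m + 1 : ℕ) : ℝ) * (B * (hh β ((m + 1 : ℕ) : ℝ) / ((m + 1 : ℕ) : ℝ))) :=
          mul_le_mul_of_nonneg_left hS hn0.le
      _ = B * hh β ((m + 1 : ℕ) : ℝ) := by field_simp
  rcases Nat.eq_zero_or_pos m with hm | hm
  · subst hm
    have e2 : SS f (0 + 1) = f (0 + 1) := by
      rw [SS_succ]; simp [SS]
    rw [e2] at e1
    have h5 : 0 ≤ B * hh β ((0 + 1 : ℕ) : ℝ) := by positivity
    linarith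
  · have hm0 : (0 : ℝ) < (m : ℝ) := by exact_mod_cast hm
    have h1m : (1 : ℝ) ≤ (m : ℝ) := by exact_mod_cast hm
    have hSm := hB m hm
    have e3 : f (m + 1) = SS f (m + 1) - SS f m := by rw [SS_succ]; ring
    have e4 : ((m + 1 : ℕ) : ℝ) * ‖SS f m‖ ≤ 2 * (B * hh β ((m + 1 : ℕ) : ℝ)) := by
      have h6 : ((m + 1 : ℕ) : ℝ) ≤ 2 * m := by push_cast; linarith
      have h7 : hh β (m : ℝ) ≤ hh β ((m + 1 : ℕ) : ℝ) := hh_mono hβ h1m (by push_cast; linarith)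
      calc ((m + 1 : ℕ) : ℝ) * ‖SS f m‖ ≤ (2 * m) * ‖SS f m‖ :=
            mul_le_mul_of_nonneg_right h6 (norm_nonneg _)
        _ ≤ (2 * m) * (B * (hh β (m : ℝ) / m)) := mul_le_mul_of_nonneg_left hSm (by positivity)
        _ = 2 * (B * hh β (m : ℝ)) := by field_simp
        _ ≤ 2 * (B * hh β ((m + 1 : ℕ) : ℝ)) := by
            have := mul_le_mul_of_nonneg_left h7 hB0
            linarith
    calc ((m + 1 : ℕ) : ℝ) * ‖f (m + 1)‖ = ((m + 1 : ℕ) : ℝ) * ‖SS f (m + 1) - SS f m‖ := by rw [← e3]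
      _ ≤ ((m + 1 : ℕ) : ℝ) * (‖SS f (m + 1)‖ + ‖SS f m‖) :=
          mul_le_mul_of_nonneg_left (norm_sub_le _ _) hn0.le
      _ ≤ 3 * B * hh β ((m + 1 : ℕ) : ℝ) := by rw [mul_add]; linarith

theorem map_prod {f : ℕ → ℂ} (f1 : f 1 = 1)
    (hmul : ∀ m n : ℕ, 1 ≤ m → 1 ≤ n → Nat.Coprime m n → f (m * n) = f m * f n)
    (A : Finset Nat.Primes) : f (∏ p ∈ A, (p : ℕ)) = ∏ p ∈ A, f p := by
  classical
  induction A using Finset.induction_on with
  | empty => simpa using f1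
  | insert a s ha ih =>
    rw [Finset.prod_insert ha, Finset.prod_insert ha, hmul _ _ a.2.one_lt.le ?_ ?_, ih]
    · exact Nat.one_le_iff_ne_zero.2 (Finset.prod_ne_zero_iff.2 fun p _ => p.2.ne_zero)
    · apply Nat.Coprime.prod_right
      intro p hp
      rw [Nat.coprime_primes a.2 p.2]
      intro h
      exact ha (by rwa [Nat.Primes.coe_nat_injective h])

theorem prod_le (A : Finset Nat.Primes) (X : ℕ) (hA : ∀ p ∈ A, (p : ℕ) ≤ X) :
    ∏ p ∈ A, (p : ℕ) ≤ 4 ^ X := by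
  classical
  refine le_trans ?_ (primorial_le_four_pow X)
  have e : ∏ p ∈ A, (p : ℕ) = ∏ q ∈ A.map ⟨fun p : Nat.Primes => (p : ℕ), Nat.Primes.coe_nat_injective⟩, q := by
    rw [Finset.prod_map]; rfl
  rw [e]
  unfold primorial
  apply Finset.prod_le_prod_of_subset_of_one_le'
  · intro q hq
    rw [Finset.mem_map] at hq
    obtain ⟨p, hp, rfl⟩ := hq
    rw [Finset.mem_filter, Finset.mem_range]
    exact ⟨Nat.lt_succ_of_le (hA p hp), p.2⟩
  · intro q hq _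
    rw [Finset.mem_filter] at hq
    exact hq.2.one_lt.le

/-- the excess -/
noncomputable def ex (f : ℕ → ℂ) (p : ℕ) : ℝ := max ((p : ℝ) * ‖f p‖ - 1) 0

theorem ex_sum {f : ℕ → ℂ} (f1 : f 1 = 1)
    (hmul : ∀ m n : ℕ, 1 ≤ m → 1 ≤ n → Nat.Coprime m n → f (m * n) = f m * f n)
    {β B C : ℝ} (hβ : 0 ≤ β) (hB : ∀ n : ℕ, 1 ≤ n → ‖SS f n‖ ≤ B * (hh β n / n))
    (hC : ∀ p : ℕ, p.Prime → (p : ℝ) * ‖f p‖ ≤ C) (A : Finset Nat.Primes) (X : ℕ)
    (hA : ∀ p ∈ A, (p : ℕ) ≤ X) :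
    ∑ p ∈ A, ex f p ≤ C * (|Real.log (3 * B)| + (X * Real.log 4) ^ β) := by
  classical
  have hC0 : 0 ≤ C := (by positivity : (0 : ℝ) ≤ ((2 : ℕ) : ℝ) * ‖f 2‖).trans (hC 2 Nat.prime_two)
  set A' : Finset Nat.Primes := A.filter (fun p => 1 < (p : ℝ) * ‖f p‖) with hA'
  have h1 : ∑ p ∈ A, ex f p = ∑ p ∈ A', ex f p := by
    rw [hA', Finset.sum_filter]
    apply Finset.sum_congr rfl
    intro p _
    split_ifs with h
    · rfl
    · unfold ex
      exact max_eq_right (by linarith [not_lt.1 h])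
  have h2 : ∀ p ∈ A', ex f p ≤ C * Real.log ((p : ℝ) * ‖f p‖) := by
    intro p hp
    rw [hA', Finset.mem_filter] at hp
    have hy : 1 < (p : ℝ) * ‖f p‖ := hp.2
    have hlog := Real.one_sub_inv_le_log_of_pos (by linarith : 0 < (p : ℝ) * ‖f p‖)
    have hlog0 : 0 ≤ Real.log ((p : ℝ) * ‖f p‖) := Real.log_nonneg hy.le
    unfold ex
    rw [max_eq_left (by linarith)]
    calc (p : ℝ) * ‖f p‖ - 1 = ((p : ℝ) * ‖f p‖) * (1 - ((p : ℝ) * ‖f p‖)⁻¹) := by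
          rw [mul_sub, mul_one, mul_inv_cancel₀ (by linarith)]
      _ ≤ ((p : ℝ) * ‖f p‖) * Real.log ((p : ℝ) * ‖f p‖) :=
          mul_le_mul_of_nonneg_left hlog (by linarith)
      _ ≤ C * Real.log ((p : ℝ) * ‖f p‖) := mul_le_mul_of_nonneg_right (hC p p.2) hlog0
  rw [h1]
  refine (Finset.sum_le_sum h2).trans ?_
  rw [← Finset.mul_sum]
  apply mul_le_mul_of_nonneg_left _ hC0
  have hne : ∀ p ∈ A', (p : ℝ) * ‖f p‖ ≠ 0 := by
    intro p hp
    rw [hA', Finset.mem_filter] at hp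
    linarith [hp.2]
  rw [← Real.log_prod hne]
  set n : ℕ := ∏ p ∈ A', (p : ℕ) with hn
  have hn1 : 1 ≤ n := Nat.one_le_iff_ne_zero.2 (Finset.prod_ne_zero_iff.2 fun p _ => p.2.ne_zero)
  have hprod : ∏ p ∈ A', (p : ℝ) * ‖f p‖ = (n : ℝ) * ‖f n‖ := by
    rw [Finset.prod_mul_distrib, hn, map_prod f1 hmul, norm_prod]
    push_cast
    rfl
  rw [hprod]
  have hterm := term_bound f1 hβ hB n hn1
  have hn4 : n ≤ 4 ^ X := prod_le A' X fun p hp => hA p (Finset.mem_filter.1 hp).1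
  have hpos : 0 < (n : ℝ) * ‖f n‖ := by
    rw [← hprod]
    apply Finset.prod_pos
    intro p hp
    rw [hA', Finset.mem_filter] at hp
    linarith [hp.2]
  have h1n : (1 : ℝ) ≤ n := by exact_mod_cast hn1
  have hh1 : 1 ≤ hh β n := one_le_hh β h1n
  have hB0 : 0 < 3 * B := by
    by_contra hcon
    have : 3 * B * hh β n ≤ 0 := mul_nonpos_of_nonpos_of_nonneg (not_lt.1 hcon) (by linarith)
    linarith
  calc Real.log ((n : ℝ) * ‖f n‖) ≤ Real.log (3 * B * hh β n) := Real.log_le_log hpos hterm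
    _ = Real.log (3 * B) + Real.log n ^ β := by
        rw [Real.log_mul hB0.ne' (by linarith)]
        unfold hh
        rw [Real.log_exp]
    _ ≤ |Real.log (3 * B)| + (X * Real.log 4) ^ β := by
        apply add_le_add (le_abs_self _)
        apply Real.rpow_le_rpow (Real.log_nonneg h1n) _ hβ
        rw [← Real.log_pow]
        apply Real.log_le_log (by linarith)
        exact_mod_cast hn4

end Pool.Agent.X301.MO
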