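import Pool.Agent.X301.MO.A
import Pool.Agent.H232R3.MOEnd

/-!
# Multiplicative functions with small partial sums: summability and the contradiction
-/

set_option autoImplicit false

open Finset Filter Topology

namespace Pool.Agent.X301.MO

/-- dyadic summation over primes -/
theorem summable_dyadic (e : Nat.Primes → ℝ) (he : ∀ p, 0 ≤ e p) {β D : ℝ} (hβ : 0 ≤ β)
    (hβ2 : β < 1 / 2)
    (hD : ∀ (A : Finset Nat.Primes) (X : ℕ), 1 ≤ X → (∀ p ∈ A, (p : ℕ) ≤ X) →
      ∑ p ∈ A, e p ≤ D * (X : ℝ) ^ β) :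
    Summable fun p : Nat.Primes => e p / Real.sqrt p := by
  classical
  have hD0 : 0 ≤ D := by
    have h := hD ∅ 1 le_rfl (by simp)
    simpa using h
  set r : ℝ := (2 : ℝ) ^ (β - 1 / 2) with hr
  have hr0 : 0 < r := Real.rpow_pos_of_pos (by norm_num) _
  have hr1 : r < 1 := Real.rpow_lt_one_of_one_lt_of_neg (by norm_num) (by linarith)
  have hblock : ∀ (A : Finset Nat.Primes) (j : ℕ), (∀ p ∈ A, Nat.log 2 (p : ℕ) = j) →
      ∑ p ∈ A, e p / Real.sqrt p ≤ (D * (2 : ℝ) ^ β) * r ^ j := by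
    intro A j hA
    have h1 : ∀ p ∈ A, e p / Real.sqrt p ≤ ((2 : ℝ) ^ (-(1 / 2 : ℝ))) ^ j * e p := by
      intro p hp
      have h2 : 2 ^ j ≤ (p : ℕ) := by
        rw [← hA p hp]
        exact Nat.pow_log_le_self 2 p.2.ne_zero
      have h3 : ((2 : ℝ) ^ j) ≤ ((p : ℕ) : ℝ) := by exact_mod_cast h2
      have h4 : Real.sqrt ((2 : ℝ) ^ j) ≤ Real.sqrt (p : ℝ) := Real.sqrt_le_sqrt h3
      have h5 : 0 < Real.sqrt ((2 : ℝ) ^ j) := Real.sqrt_pos.2 (by positivity)
      have h6 : ((2 : ℝ) ^ (-(1 / 2 : ℝ))) ^ j = (Real.sqrt ((2 : ℝ) ^ j))⁻¹ := by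
        rw [Real.sqrt_eq_rpow, ← Real.rpow_natCast, ← Real.rpow_natCast, ← Real.rpow_mul (by norm_num),
          ← Real.rpow_mul (by norm_num), ← Real.rpow_neg (by norm_num)]
        congr 1
        ring
      rw [h6, div_eq_mul_inv, mul_comm]
      exact mul_le_mul_of_nonneg_right (inv_anti₀ h5 h4) (he p)
    refine (Finset.sum_le_sum h1).trans ?_
    rw [← Finset.mul_sum]
    have h7 : ∑ p ∈ A, e p ≤ D * ((2 ^ (j + 1) : ℕ) : ℝ) ^ β := by
      apply hD A (2 ^ (j + 1)) Nat.one_le_two_pow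
      intro p hp
      rw [← hA p hp]
      exact (Nat.lt_pow_succ_log_self (by norm_num) _).le
    refine (mul_le_mul_of_nonneg_left h7 (by positivity)).trans (le_of_eq ?_)
    have h8 : (((2 ^ (j + 1) : ℕ) : ℝ)) ^ β = (2 : ℝ) ^ β * ((2 : ℝ) ^ β) ^ j := by
      push_cast
      rw [pow_succ, Real.mul_rpow (by positivity) (by norm_num), mul_comm]
      congr 1
      rw [← Real.rpow_natCast, ← Real.rpow_natCast, ← Real.rpow_mul (by norm_num),
        ← Real.rpow_mul (by norm_num), mul_comm]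
    have h9 : r ^ j = ((2 : ℝ) ^ β) ^ j * ((2 : ℝ) ^ (-(1 / 2 : ℝ))) ^ j := by
      rw [← mul_pow, ← Real.rpow_add (by norm_num), hr]
      congr 2
    rw [h8, h9]
    ring
  apply summable_of_sum_le (c := (D * (2 : ℝ) ^ β) * (1 - r)⁻¹)
    (fun p => div_nonneg (he p) (Real.sqrt_nonneg _))
  intro u
  set J : ℕ := u.sup (fun p => Nat.log 2 (p : ℕ)) with hJ
  have hmaps : ∀ p ∈ u, Nat.log 2 (p : ℕ) ∈ range (J + 1) := by
    intro p hp
    rw [Finset.mem_range, Nat.lt_succ_iff, hJ]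
    exact Finset.le_sup (f := fun p : Nat.Primes => Nat.log 2 (p : ℕ)) hp
  rw [← Finset.sum_fiberwise_of_maps_to hmaps]
  calc ∑ j ∈ range (J + 1), ∑ p ∈ u.filter (fun p : Nat.Primes => Nat.log 2 (p : ℕ) = j), e p / Real.sqrt p
      ≤ ∑ j ∈ range (J + 1), (D * (2 : ℝ) ^ β) * r ^ j := by
        apply Finset.sum_le_sum
        intro j _
        apply hblock
        intro p hp
        exact (Finset.mem_filter.1 hp).2
    _ = (D * (2 : ℝ) ^ β) * ∑ j ∈ range (J + 1), r ^ j := by rw [Finset.mul_sum]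
    _ ≤ (D * (2 : ℝ) ^ β) * (1 - r)⁻¹ := by
        apply mul_le_mul_of_nonneg_left _ (by positivity)
        have hs := summable_geometric_of_lt_one hr0.le hr1
        rw [← tsum_geometric_of_lt_one hr0.le hr1]
        exact hs.sum_le_tsum _ (fun i _ => by positivity)

theorem summable_excess {f : ℕ → ℂ} (f1 : f 1 = 1)
    (hmul : ∀ m n : ℕ, 1 ≤ m → 1 ≤ n → Nat.Coprime m n → f (m * n) = f m * f n)
    {β B C : ℝ} (hβ : 0 ≤ β) (hβ2 : β < 1 / 2)
    (hB : ∀ n : ℕ, 1 ≤ n → ‖SS f n‖ ≤ B * (hh β n / n))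
    (hC : ∀ p : ℕ, p.Prime → (p : ℝ) * ‖f p‖ ≤ C) :
    Summable fun p : Nat.Primes => Real.sqrt p * max (-(1 / (p : ℝ)) - (f p).re) 0 := by
  have hC0 : 0 ≤ C := (by positivity : (0 : ℝ) ≤ ((2 : ℕ) : ℝ) * ‖f 2‖).trans (hC 2 Nat.prime_two)
  have hlog4 : 0 < Real.log 4 := Real.log_pos (by norm_num)
  have h := summable_dyadic (fun p => ex f p) (fun p => le_max_right _ _) hβ hβ2
    (D := C * (|Real.log (3 * B)| + Real.log 4 ^ β)) (by
      intro A X hX hA
      refine (ex_sum f1 hmul hβ hB hC A X hA).trans ?_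
      rw [mul_assoc]
      apply mul_le_mul_of_nonneg_left _ hC0
      rw [Real.mul_rpow (Nat.cast_nonneg _) hlog4.le, add_mul, mul_comm ((X : ℝ) ^ β)]
      have hX1 : (1 : ℝ) ≤ X := by exact_mod_cast hX
      have h1 : 1 ≤ (X : ℝ) ^ β := Real.one_le_rpow hX1 hβ
      have h2 : |Real.log (3 * B)| ≤ |Real.log (3 * B)| * (X : ℝ) ^ β :=
        le_mul_of_one_le_right (abs_nonneg _) h1
      linarith)
  refine Summable.of_nonneg_of_le (fun p => ?_) (fun p => ?_) h
  · exact mul_nonneg (Real.sqrt_nonneg _) (le_max_right _ _)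
  · have hp0 : (0 : ℝ) < ((p : ℕ) : ℝ) := by exact_mod_cast p.2.pos
    have hs0 : 0 < Real.sqrt (p : ℝ) := Real.sqrt_pos.2 hp0
    have hkey : max (-(1 / ((p : ℕ) : ℝ)) - (f p).re) 0 ≤ ex f p / p := by
      apply max_le
      · have h1 : -(f p).re ≤ ‖f p‖ := (neg_le_abs _).trans (Complex.abs_re_le_norm _)
        rw [le_div_iff₀ hp0]
        have h2 : (-(1 / ((p : ℕ) : ℝ)) - (f p).re) * p = -1 + (-(f p).re) * p := by
          field_simp
          ring
        rw [h2]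
        refine le_trans ?_ (le_max_left _ _)
        have := mul_le_mul_of_nonneg_right h1 hp0.le
        linarith
      · exact div_nonneg (le_max_right _ _) hp0.le
    calc Real.sqrt p * max (-(1 / (p : ℝ)) - (f p).re) 0 ≤ Real.sqrt p * (ex f p / p) :=
          mul_le_mul_of_nonneg_left hkey hs0.le
      _ = ex f p / Real.sqrt p := by
          rw [mul_div_assoc', div_eq_div_iff hp0.ne' hs0.ne']
          have := Real.mul_self_sqrt hp0.le
          calc Real.sqrt p * ex f p * Real.sqrt p = ex f p * (Real.sqrt p * Real.sqrt p) := by ring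
            _ = ex f p * p := by rw [this]

/-- the main contradiction -/
theorem no_decay (f : ℕ → ℂ) (f1 : f 1 = 1)
    (hmul : ∀ m n : ℕ, 1 ≤ m → 1 ≤ n → Nat.Coprime m n → f (m * n) = f m * f n)
    (C : ℝ) (hC : ∀ p k : ℕ, p.Prime → 1 ≤ k → ‖f (p ^ k)‖ ≤ (C / p) ^ k)
    (hL : ∀ p : ℕ, p.Prime → Summable fun k : ℕ => ‖f (p ^ k)‖ * Real.sqrt ((p : ℝ) ^ k))
    (hc : ∀ p : ℕ, p.Prime → ∀ s : ℂ, -(1/2) ≤ s.re →
      ∑' k : ℕ, f (p ^ k) * (p : ℂ) ^ (-((k : ℂ) * s)) ≠ 0)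
    {β : ℝ} (hβ : 0 ≤ β) (hβ2 : β < 1 / 2) (B : ℝ)
    (hB : ∀ n : ℕ, 1 ≤ n → ‖SS f n‖ ≤ B * (hh β n / n)) : False := by
  have hC0 : 0 ≤ C := by
    have h := (norm_nonneg _).trans (hC 2 1 Nat.prime_two le_rfl)
    rw [pow_one] at h
    push_cast at h
    linarith
  have hCp : ∀ p : ℕ, p.Prime → (p : ℝ) * ‖f p‖ ≤ C := by
    intro p hp
    have h := hC p 1 hp le_rfl
    rw [pow_one, pow_one] at h
    have hp0 : (0 : ℝ) < p := by exact_mod_cast hp.pos
    calc (p : ℝ) * ‖f p‖ ≤ p * (C / p) := mul_le_mul_of_nonneg_left h hp0.le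
      _ = C := by field_simp
  have ha := summable_excess f1 hmul hβ hβ2 hB hCp
  obtain ⟨K, hK⟩ := exists_nat_ge (3 * C ^ 2)
  have hb : Summable fun p : Nat.Primes =>
      (p : ℝ) * max ((f p ^ 2 - 2 * f ((p : ℕ) ^ 2)).re - (K + 1) / (p : ℝ) ^ 2) 0 := by
    have hzero : ∀ p : Nat.Primes,
        (p : ℝ) * max ((f p ^ 2 - 2 * f ((p : ℕ) ^ 2)).re - (K + 1) / (p : ℝ) ^ 2) 0 = 0 := by
      intro p
      have hp0 : (0 : ℝ) < ((p : ℕ) : ℝ) := by exact_mod_cast p.2.pos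
      have h1 := hC p 1 p.2 le_rfl
      rw [pow_one, pow_one] at h1
      have h2 := hC p 2 p.2 (by norm_num)
      have h3 : (f p ^ 2 - 2 * f ((p : ℕ) ^ 2)).re ≤ 3 * (C / p) ^ 2 := by
        refine (Complex.re_le_norm _).trans ((norm_sub_le _ _).trans ?_)
        rw [norm_pow, norm_mul, Complex.norm_ofNat]
        have h4 : ‖f p‖ ^ 2 ≤ (C / p) ^ 2 := pow_le_pow_left₀ (norm_nonneg _) h1 2
        linarith
      have h5 : 3 * (C / (p : ℝ)) ^ 2 ≤ (K + 1) / (p : ℝ) ^ 2 := by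
        rw [div_pow, mul_div_assoc']
        apply div_le_div_of_nonneg_right _ (by positivity)
        linarith
      rw [max_eq_right (by linarith), mul_zero]
    simp_rw [hzero]
    exact summable_zero
  have hK0 : (0 : ℝ) ≤ K := Nat.cast_nonneg K
  set U : ℝ := max 16 (32 * B + 1) with hU
  obtain ⟨N, hNM, hN1, hN⟩ := Pool.H232R3.mo_main f f1
    (fun m n hm hn hmn => hmul m n hm hn hmn) C K hC ha hb hL hc 1
    (by rw [div_lt_one (by linarith)]; linarith) 1 ⌈Real.exp U⌉₊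
  have hNb := hB N hN1.le
  have hNpos : (0 : ℝ) < N := by exact_mod_cast (by omega : 0 < N)
  have hNU : Real.exp U ≤ N := (Nat.le_ceil _).trans (by exact_mod_cast hNM)
  set u : ℝ := Real.log N with hu
  have hUu : U ≤ u := by
    rw [hu, Real.le_log_iff_exp_le hNpos]
    exact hNU
  have hu16 : 16 ≤ u := (le_max_left _ _).trans hUu
  have huB : 32 * B + 1 ≤ u := (le_max_right _ _).trans hUu
  have hu0 : 0 < u := by linarith
  have hNe : (N : ℝ) = Real.exp u := by rw [hu, Real.exp_log hNpos]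
  have h1 : Real.exp (-(u / 2)) * u⁻¹ ≤ B * (Real.exp (u ^ β) * Real.exp (-u)) := by
    have h2 : (1 : ℝ) * ((N : ℝ) ^ (-(1/2) : ℝ) * u ^ (-1 : ℝ)) ≤ B * (hh β N / N) := hN.trans hNb
    have h3 : (N : ℝ) ^ (-(1/2) : ℝ) = Real.exp (-(u / 2)) := by
      rw [Real.rpow_def_of_pos hNpos, ← hu]
      congr 1
      ring
    have h4 : hh β (N : ℝ) / N = Real.exp (u ^ β) * Real.exp (-u) := by
      unfold hh
      rw [← hu, Real.exp_neg, ← hNe, div_eq_mul_inv]
    rw [h3, h4, one_mul, Real.rpow_neg_one] at h2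
    exact h2
  have hub : u ^ β ≤ u / 4 := by
    have h2 : u ^ β ≤ u ^ (1 / 2 : ℝ) :=
      Real.rpow_le_rpow_of_exponent_le (by linarith) hβ2.le
    have h3 : u ^ (1 / 2 : ℝ) = Real.sqrt u := (Real.sqrt_eq_rpow u).symm
    have h4 : Real.sqrt u ≤ u / 4 := by
      rw [Real.sqrt_le_left (by linarith)]
      nlinarith
    linarith
  have hB0 : 0 ≤ B := by
    by_contra hneg
    push Not at hneg
    have h2 : B * (Real.exp (u ^ β) * Real.exp (-u)) < 0 := mul_neg_of_neg_of_pos hneg (by positivity)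
    have h3 : 0 < Real.exp (-(u / 2)) * u⁻¹ := by positivity
    linarith
  have h5 : Real.exp (u / 4) ≤ B * u := by
    have h6 : Real.exp (u ^ β) ≤ Real.exp (u / 4) := Real.exp_le_exp.2 hub
    have h7 : Real.exp (-(u / 2)) * u⁻¹ ≤ B * (Real.exp (u / 4) * Real.exp (-u)) :=
      h1.trans (mul_le_mul_of_nonneg_left (mul_le_mul_of_nonneg_right h6 (Real.exp_pos _).le) hB0)
    rw [← Real.exp_add] at h7
    have h8 : Real.exp (-(u / 2)) ≤ B * Real.exp (u / 4 + -u) * u := by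
      rw [← div_eq_mul_inv, div_le_iff₀ hu0] at h7
      exact h7
    have h9 : Real.exp (u / 4) = Real.exp (-(u / 2)) * Real.exp (3 * u / 4) := by
      rw [← Real.exp_add]; congr 1; ring
    rw [h9]
    calc Real.exp (-(u / 2)) * Real.exp (3 * u / 4)
        ≤ (B * Real.exp (u / 4 + -u) * u) * Real.exp (3 * u / 4) :=
          mul_le_mul_of_nonneg_right h8 (Real.exp_pos _).le
      _ = B * u * (Real.exp (u / 4 + -u) * Real.exp (3 * u / 4)) := by ring
      _ = B * u := by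
          rw [← Real.exp_add, show u / 4 + -u + 3 * u / 4 = 0 by ring, Real.exp_zero, mul_one]
  have h10 := Real.quadratic_le_exp_of_nonneg (x := u / 4) (by linarith)
  nlinarith

end Pool.Agent.X301.MO
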