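import Pool.Agent.X301.MO.B
import Pool.Agent.TH127.MO.Top

/-!
# MO functions with partial sums `O(1/x)`
-/

set_option autoImplicit false

open Finset Filter Topology

namespace Pool.Agent.X301.MO

open Pool.Agent.TH127.MO (S IsMO)

/-- the local factor of the Dirichlet series of `f` at the prime `p` -/
noncomputable def LocalFactor (f : ℕ → ℂ) (p : ℕ) (s : ℂ) : ℂ :=
  ∑' k : ℕ, f (p ^ k) * (p : ℂ) ^ (-((k : ℂ) * s))

theorem S_nat (f : ℕ → ℂ) (n : ℕ) : S f (n : ℝ) = SS f n := by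
  unfold S SS
  rw [Nat.floor_natCast]

theorem norm_pk {p : ℕ} (hp : p.Prime) (k : ℕ) {s : ℂ} (hs : -(1/2) ≤ s.re) :
    ‖(p : ℂ) ^ (-((k : ℂ) * s))‖ ≤ Real.sqrt ((p : ℝ) ^ k) := by
  have hp0 : (0 : ℝ) < p := by exact_mod_cast hp.pos
  have hp1 : (1 : ℝ) ≤ p := by exact_mod_cast hp.one_lt.le
  rw [Complex.norm_natCast_cpow_of_pos hp.pos, Real.sqrt_eq_rpow, ← Real.rpow_natCast,
    ← Real.rpow_mul hp0.le]
  apply Real.rpow_le_rpow_of_exponent_le hp1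
  have hk : (0 : ℝ) ≤ k := Nat.cast_nonneg k
  have e : (-((k : ℂ) * s)).re = -(k * s.re) := by simp
  rw [e]
  nlinarith

/-- a local factor whose nonconstant part is small has no zeros -/
theorem local_ne_zero {f : ℕ → ℂ} (f1 : f 1 = 1) {p : ℕ} (hp : p.Prime)
    (hL : Summable fun k : ℕ => ‖f (p ^ k)‖ * Real.sqrt ((p : ℝ) ^ k))
    (hlt : ∑' k : ℕ, ‖f (p ^ (k + 1))‖ * Real.sqrt ((p : ℝ) ^ (k + 1)) < 1) (s : ℂ)
    (hs : -(1/2) ≤ s.re) : LocalFactor f p s ≠ 0 := by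
  have hb : ∀ k : ℕ, ‖f (p ^ k) * (p : ℂ) ^ (-((k : ℂ) * s))‖ ≤
      ‖f (p ^ k)‖ * Real.sqrt ((p : ℝ) ^ k) := by
    intro k
    rw [norm_mul]
    exact mul_le_mul_of_nonneg_left (norm_pk hp k hs) (norm_nonneg _)
  have hsum : Summable fun k : ℕ => f (p ^ k) * (p : ℂ) ^ (-((k : ℂ) * s)) :=
    Summable.of_norm_bounded hL hb
  have hL1 := (summable_nat_add_iff 1).2 hL
  have e : LocalFactor f p s = 1 + ∑' k : ℕ, f (p ^ (k + 1)) * (p : ℂ) ^ (-(((k + 1 : ℕ) : ℂ) * s)) := by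
    unfold LocalFactor
    rw [hsum.tsum_eq_zero_add]
    congr 1
    simp [f1]
  have h2 : ‖∑' k : ℕ, f (p ^ (k + 1)) * (p : ℂ) ^ (-(((k + 1 : ℕ) : ℂ) * s))‖ < 1 :=
    lt_of_le_of_lt (tsum_of_norm_bounded hL1.hasSum fun k => hb (k + 1)) hlt
  intro h0
  rw [e] at h0
  have h3 : ∑' k : ℕ, f (p ^ (k + 1)) * (p : ℂ) ^ (-(((k + 1 : ℕ) : ℂ) * s)) = -1 := by
    linear_combination h0
  rw [h3, norm_neg, norm_one] at h2
  exact lt_irrefl _ h2

/-- from an eventual bound to a bound for all `n` -/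
theorem global_bound (f : ℕ → ℂ) {β B : ℝ}
    (h : ∀ᶠ x : ℝ in atTop, ‖S f x‖ ≤ B * (hh β x / x)) :
    ∃ B' : ℝ, ∀ n : ℕ, 1 ≤ n → ‖SS f n‖ ≤ B' * (hh β n / n) := by
  obtain ⟨x0, hx0⟩ := eventually_atTop.1 h
  obtain ⟨N0, hN0⟩ := exists_nat_ge x0
  refine ⟨|B| + ∑ m ∈ range N0, (m : ℝ) * ‖SS f m‖, fun n hn => ?_⟩
  have hn0 : (0 : ℝ) < n := by exact_mod_cast hn
  have h1n : (1 : ℝ) ≤ n := by exact_mod_cast hn
  have hh1 := one_le_hh β h1n
  have hq : 0 ≤ hh β (n : ℝ) / n := by positivity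
  have hs0 : 0 ≤ ∑ m ∈ range N0, (m : ℝ) * ‖SS f m‖ := Finset.sum_nonneg fun _ _ => by positivity
  rcases lt_or_ge n N0 with h2 | h2
  · have h3 := Finset.single_le_sum (f := fun m : ℕ => (m : ℝ) * ‖SS f m‖)
      (fun m _ => by positivity) (Finset.mem_range.2 h2)
    have h4 : (n : ℝ) * ‖SS f n‖ ≤ |B| + ∑ m ∈ range N0, (m : ℝ) * ‖SS f m‖ :=
      h3.trans (by linarith [abs_nonneg B])
    calc ‖SS f n‖ = ((n : ℝ) * ‖SS f n‖) * (1 / n) := by field_simp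
      _ ≤ (|B| + ∑ m ∈ range N0, (m : ℝ) * ‖SS f m‖) * (1 / n) :=
          mul_le_mul_of_nonneg_right h4 (by positivity)
      _ ≤ (|B| + ∑ m ∈ range N0, (m : ℝ) * ‖SS f m‖) * (hh β (n : ℝ) / n) := by
          apply mul_le_mul_of_nonneg_left _ (by positivity)
          exact div_le_div_of_nonneg_right hh1 hn0.le
  · have h3 := hx0 n (hN0.trans (by exact_mod_cast h2))
    rw [S_nat] at h3
    refine h3.trans (mul_le_mul_of_nonneg_right ?_ hq)
    linarith [le_abs_self B]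

/-- if `|S_f(n)| ≤ K / n` then `n |f(n)| ≤ 3 K` -/
theorem term_le {f : ℕ → ℂ} {K : ℝ} (hK : ∀ n : ℕ, 1 ≤ n → ‖SS f n‖ ≤ K / n) (n : ℕ) (hn : 1 ≤ n) :
    (n : ℝ) * ‖f n‖ ≤ 3 * K := by
  have hK0 : 0 ≤ K := by
    have h := (norm_nonneg _).trans (hK 1 le_rfl)
    simpa using h
  obtain ⟨m, rfl⟩ : ∃ m, n = m + 1 := ⟨n - 1, by omega⟩
  have hn0 : (0 : ℝ) < ((m + 1 : ℕ) : ℝ) := by positivity
  have e1 : ((m + 1 : ℕ) : ℝ) * ‖SS f (m + 1)‖ ≤ K := by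
    have h := hK (m + 1) hn
    rw [le_div_iff₀ hn0] at h
    linarith
  rcases Nat.eq_zero_or_pos m with hm | hm
  · subst hm
    have e2 : SS f (0 + 1) = f (0 + 1) := by
      rw [SS_succ]; simp [SS]
    rw [e2] at e1
    linarith
  · have hm0 : (0 : ℝ) < (m : ℝ) := by exact_mod_cast hm
    have h1m : (1 : ℝ) ≤ (m : ℝ) := by exact_mod_cast hm
    have hSm := hK m hm
    rw [le_div_iff₀ hm0] at hSm
    have e3 : f (m + 1) = SS f (m + 1) - SS f m := by rw [SS_succ]; ring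
    have e4 : ((m + 1 : ℕ) : ℝ) * ‖SS f m‖ ≤ 2 * K := by
      have h6 : ((m + 1 : ℕ) : ℝ) ≤ 2 * m := by push_cast; linarith
      calc ((m + 1 : ℕ) : ℝ) * ‖SS f m‖ ≤ (2 * m) * ‖SS f m‖ :=
            mul_le_mul_of_nonneg_right h6 (norm_nonneg _)
        _ ≤ 2 * K := by linarith
    calc ((m + 1 : ℕ) : ℝ) * ‖f (m + 1)‖ = ((m + 1 : ℕ) : ℝ) * ‖SS f (m + 1) - SS f m‖ := by rw [← e3]
      _ ≤ ((m + 1 : ℕ) : ℝ) * (‖SS f (m + 1)‖ + ‖SS f m‖) :=
          mul_le_mul_of_nonneg_left (norm_sub_le _ _) hn0.le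
      _ ≤ 3 * K := by rw [mul_add]; linarith

/-- geometric bounds at the prime powers -/
theorem geom_bound {f : ℕ → ℂ} {K : ℝ} (hK : ∀ n : ℕ, 1 ≤ n → ‖SS f n‖ ≤ K / n) {p : ℕ}
    (hp : p.Prime) (k : ℕ) :
    ‖f (p ^ k)‖ * Real.sqrt ((p : ℝ) ^ k) ≤ 3 * K * ((Real.sqrt p)⁻¹) ^ k := by
  have hp0 : (0 : ℝ) < p := by exact_mod_cast hp.pos
  have h1 := term_le hK (p ^ k) (Nat.one_le_iff_ne_zero.2 (pow_ne_zero k hp.ne_zero))
  have hpk : (0 : ℝ) < ((p ^ k : ℕ) : ℝ) := by exact_mod_cast pow_pos hp.pos k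
  have hpk' : (0 : ℝ) < (p : ℝ) ^ k := by positivity
  have hs0 : 0 < Real.sqrt ((p : ℝ) ^ k) := Real.sqrt_pos.2 hpk'
  have e : ((Real.sqrt p)⁻¹) ^ k = (Real.sqrt ((p : ℝ) ^ k))⁻¹ := by
    rw [inv_pow, Real.sqrt_eq_rpow, Real.sqrt_eq_rpow, ← Real.rpow_natCast, ← Real.rpow_natCast,
      ← Real.rpow_mul hp0.le, ← Real.rpow_mul hp0.le]
    congr 2
    ring
  rw [e, ← div_eq_mul_inv, le_div_iff₀ hs0, mul_assoc, Real.mul_self_sqrt hpk'.le]
  push_cast at h1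
  linarith

theorem summable_local {f : ℕ → ℂ} {K : ℝ} (hK : ∀ n : ℕ, 1 ≤ n → ‖SS f n‖ ≤ K / n) {p : ℕ}
    (hp : p.Prime) : Summable fun k : ℕ => ‖f (p ^ k)‖ * Real.sqrt ((p : ℝ) ^ k) := by
  have hp1 : (1 : ℝ) < p := by exact_mod_cast hp.one_lt
  have hs1 : 1 < Real.sqrt p := by
    rw [Real.lt_sqrt (by norm_num)]
    simpa using hp1
  have hr0 : 0 ≤ (Real.sqrt p)⁻¹ := by positivity
  have hr1 : (Real.sqrt p)⁻¹ < 1 := inv_lt_one_of_one_lt₀ hs1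
  exact Summable.of_nonneg_of_le (fun k => by positivity) (fun k => geom_bound hK hp k)
    ((summable_geometric_of_lt_one hr0 hr1).mul_left (3 * K))

/-- the local factors at large primes have no zeros -/
theorem large_primes {f : ℕ → ℂ} (f1 : f 1 = 1) {K : ℝ}
    (hK : ∀ n : ℕ, 1 ≤ n → ‖SS f n‖ ≤ K / n) {p : ℕ} (hp : p.Prime) (hpK : (3 * K + 1) ^ 2 < p)
    (s : ℂ) (hs : -(1/2) ≤ s.re) : LocalFactor f p s ≠ 0 := by
  have hK0 : 0 ≤ K := by
    have h := (norm_nonneg _).trans (hK 1 le_rfl)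
    simpa using h
  have hp1 : (1 : ℝ) < p := by exact_mod_cast hp.one_lt
  have hs1 : 3 * K + 1 < Real.sqrt p := by
    rw [Real.lt_sqrt (by linarith)]
    exact hpK
  have hr0 : 0 ≤ (Real.sqrt p)⁻¹ := by positivity
  have hr1 : (Real.sqrt p)⁻¹ < 1 := inv_lt_one_of_one_lt₀ (by linarith)
  apply local_ne_zero f1 hp (summable_local hK hp) _ s hs
  have hgeo := (summable_geometric_of_lt_one hr0 hr1).mul_left (3 * K * (Real.sqrt p)⁻¹)
  have hle : ∑' k : ℕ, ‖f (p ^ (k + 1))‖ * Real.sqrt ((p : ℝ) ^ (k + 1)) ≤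
      ∑' k : ℕ, 3 * K * (Real.sqrt p)⁻¹ * ((Real.sqrt p)⁻¹) ^ k := by
    apply Summable.tsum_le_tsum _ ((summable_nat_add_iff 1).2 (summable_local hK hp)) hgeo
    intro k
    refine (geom_bound hK hp (k + 1)).trans (le_of_eq ?_)
    rw [pow_succ]
    ring
  refine lt_of_le_of_lt hle ?_
  rw [tsum_mul_left, tsum_geometric_of_lt_one hr0 hr1]
  have hsp : 0 < Real.sqrt p := by linarith
  have h1 : 0 < 1 - (Real.sqrt p)⁻¹ := by linarith
  rw [← div_eq_mul_inv, div_lt_one h1]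
  rw [← sub_pos]
  have h2 : 1 - (Real.sqrt p)⁻¹ - 3 * K * (Real.sqrt p)⁻¹ = (Real.sqrt p - (3 * K + 1)) * (Real.sqrt p)⁻¹ := by
    field_simp
    ring
  rw [h2]
  exact mul_pos (by linarith) (by positivity)

/-- a local factor at a small prime has a zero -/
theorem exists_zero {f : ℕ → ℂ} (f1 : f 1 = 1)
    (hmul : ∀ m n : ℕ, 1 ≤ m → 1 ≤ n → Nat.Coprime m n → f (m * n) = f m * f n) {K : ℝ}
    (hK : ∀ n : ℕ, 1 ≤ n → ‖SS f n‖ ≤ K / n) :
    ∃ p : ℕ, p.Prime ∧ (p : ℝ) ≤ (3 * K + 1) ^ 2 ∧ ∃ s : ℂ, -(1/2) ≤ s.re ∧ LocalFactor f p s = 0 := by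
  by_contra hcon
  push Not at hcon
  have hK1 : 1 ≤ K := by
    have h := hK 1 le_rfl
    have e : SS f 1 = 1 := by
      have : SS f (0 + 1) = f (0 + 1) := by rw [SS_succ]; simp [SS]
      simpa [f1] using this
    rw [e] at h
    simpa using h
  refine no_decay f f1 hmul (3 * K) (fun p k hp hk => ?_) (fun p hp => summable_local hK hp)
    (fun p hp s hs => ?_) (β := 0) le_rfl (by norm_num) K (fun n hn => ?_)
  · have h1 := term_le hK (p ^ k) (Nat.one_le_iff_ne_zero.2 (pow_ne_zero k hp.ne_zero))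
    have hp0 : (0 : ℝ) < p := by exact_mod_cast hp.pos
    rw [div_pow, le_div_iff₀ (by positivity)]
    push_cast at h1
    have h2 : 3 * K ≤ (3 * K) ^ k := le_self_pow₀ (by linarith) (by omega)
    linarith
  · by_cases h : (p : ℝ) ≤ (3 * K + 1) ^ 2
    · exact hcon p hp h s hs
    · exact large_primes f1 hK hp (not_le.1 h) s hs
  · have hn0 : (0 : ℝ) < n := by exact_mod_cast hn
    have h1n : (1 : ℝ) ≤ n := by exact_mod_cast hn
    refine (hK n hn).trans ?_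
    rw [div_eq_mul_one_div]
    apply mul_le_mul_of_nonneg_left _ (by linarith)
    exact div_le_div_of_nonneg_right (one_le_hh 0 h1n) hn0.le

/-- the excesses are summable -/
theorem summable_ex {f : ℕ → ℂ} (f1 : f 1 = 1)
    (hmul : ∀ m n : ℕ, 1 ≤ m → 1 ≤ n → Nat.Coprime m n → f (m * n) = f m * f n) {K : ℝ}
    (hK : ∀ n : ℕ, 1 ≤ n → ‖SS f n‖ ≤ K / n) : Summable fun p : Nat.Primes => ex f p := by
  have hK0 : 0 ≤ K := by
    have h := (norm_nonneg _).trans (hK 1 le_rfl)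
    simpa using h
  apply summable_of_sum_le (c := (3 * K) * (|Real.log (3 * K)| + 1)) (fun p => le_max_right _ _)
  intro u
  have h := ex_sum f1 hmul (β := 0) (B := K) (C := 3 * K) le_rfl (fun n hn => by
      have hn0 : (0 : ℝ) < n := by exact_mod_cast hn
      have h1n : (1 : ℝ) ≤ n := by exact_mod_cast hn
      refine (hK n hn).trans ?_
      rw [div_eq_mul_one_div]
      apply mul_le_mul_of_nonneg_left _ hK0
      exact div_le_div_of_nonneg_right (one_le_hh 0 h1n) hn0.le)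
    (fun p hp => term_le hK p hp.one_lt.le) u (u.sup fun p => (p : ℕ))
    (fun p hp => Finset.le_sup (f := fun p : Nat.Primes => (p : ℕ)) hp)
  rw [Real.rpow_zero] at h
  exact h

/-- `f(p)` is close to `-1/p` -/
theorem summable_near {f : ℕ → ℂ} (hf : IsMO f) {K : ℝ} (hK : ∀ x : ℝ, 1 ≤ x → ‖S f x‖ ≤ K / x) :
    Summable fun p : Nat.Primes => ‖1 + (p : ℂ) * f p‖ ^ 2 / ((p : ℕ) : ℝ) := by
  have hKn : ∀ n : ℕ, 1 ≤ n → ‖SS f n‖ ≤ K / n := by
    intro n hn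
    rw [← S_nat]
    exact hK n (by exact_mod_cast hn)
  have hK0 : 0 ≤ K := by
    have h := (norm_nonneg _).trans (hKn 1 le_rfl)
    simpa using h
  have h1 := Pool.Agent.TH127.MO.summable_dist hf hK
  have h2 := summable_ex hf.one (fun m n hm hn h => hf.mul m n hm hn h) hKn
  have h3 : Summable fun p : Nat.Primes => (3 * K + 3) * (|1 + ((p : ℕ) : ℝ) * (f p).re| / ((p : ℕ) : ℝ))
      + (3 * K + 2) * ex f p := (h1.mul_left _).add (h2.mul_left _)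
  refine Summable.of_nonneg_of_le (fun p => by positivity) (fun p => ?_) h3
  have hp0 : (0 : ℝ) < ((p : ℕ) : ℝ) := by exact_mod_cast p.2.pos
  have hp1 : (1 : ℝ) ≤ ((p : ℕ) : ℝ) := by exact_mod_cast p.2.one_lt.le
  set P : ℝ := ((p : ℕ) : ℝ) with hP
  set r : ℝ := P * (f p).re with hr
  set i : ℝ := P * (f p).im with hi
  set e : ℝ := ex f p with he
  have he0 : 0 ≤ e := le_max_right _ _
  have hterm : P * ‖f p‖ ≤ 3 * K := term_le hKn p p.2.one_lt.le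
  have he1 : P * ‖f p‖ ≤ 1 + e := by
    have : P * ‖f p‖ - 1 ≤ e := le_max_left _ _
    linarith
  have heK : e ≤ 3 * K := max_le (by linarith) (by linarith)
  have hn2 : (P * ‖f p‖) ^ 2 = r ^ 2 + i ^ 2 := by
    rw [mul_pow, Complex.sq_norm, Complex.normSq_apply, hr, hi]
    ring
  have hnorm : ‖1 + (p : ℂ) * f p‖ ^ 2 = (1 + r) ^ 2 + i ^ 2 := by
    rw [Complex.sq_norm, Complex.normSq_apply]
    have e1 : (1 + (p : ℂ) * f p).re = 1 + r := by simp [hr, hP]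
    have e2 : (1 + (p : ℂ) * f p).im = i := by simp [hi, hP]
    rw [e1, e2]
    ring
  rw [hnorm]
  set δ : ℝ := |1 + r| with hδ
  have hδ0 : 0 ≤ δ := abs_nonneg _
  have hr1 : |r| ≤ 3 * K := by
    have h5 : |r| = P * |(f p).re| := by rw [hr, abs_mul, abs_of_pos hp0]
    rw [h5]
    exact (mul_le_mul_of_nonneg_left (Complex.abs_re_le_norm _) hp0.le).trans hterm
  have hδK : δ ≤ 3 * K + 1 := by
    refine (abs_add_le _ _).trans ?_
    rw [abs_one]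
    linarith
  have hsq : (1 + r) ^ 2 = δ ^ 2 := (sq_abs _).symm
  have hPn0 : 0 ≤ P * ‖f p‖ := by positivity
  have hi2 : i ^ 2 ≤ (1 + e) ^ 2 - r ^ 2 := by
    have := pow_le_pow_left₀ hPn0 he1 2
    linarith
  have hr2 : 1 - 2 * δ ≤ r ^ 2 := by
    have h6 : r ^ 2 = (1 + r) ^ 2 - 2 * (1 + r) + 1 := by ring
    have h7 : 1 + r ≤ δ := le_abs_self _
    nlinarith [sq_nonneg (1 + r)]
  have hmain : (1 + r) ^ 2 + i ^ 2 ≤ (3 * K + 3) * δ + (3 * K + 2) * e := by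
    rw [hsq]
    nlinarith
  calc ((1 + r) ^ 2 + i ^ 2) / P ≤ ((3 * K + 3) * δ + (3 * K + 2) * e) / P :=
        div_le_div_of_nonneg_right hmain hp0.le
    _ = (3 * K + 3) * (δ / P) + (3 * K + 2) * e / P := by ring
    _ ≤ (3 * K + 3) * (δ / P) + (3 * K + 2) * e := by
        have h8 : 0 ≤ (3 * K + 2) * e := by positivity
        have := div_le_self h8 hp1
        linarith

end Pool.Agent.X301.MO
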