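import Mathlib

/-!
# Splitting off a set of primes from a multiplicative function
-/

set_option autoImplicit false

open Finset Filter Topology

namespace Pool.Agent.X301.MO

open Classical in
/-- the restriction of `f` to the integers all of whose prime factors satisfy `Q` -/
noncomputable def restr (Q : ℕ → Prop) (f : ℕ → ℂ) : ArithmeticFunction ℂ :=
  ⟨fun n => if n ≠ 0 ∧ ∀ p ∈ n.primeFactors, Q p then f n else 0, by simp⟩

theorem restr_of {Q : ℕ → Prop} {f : ℕ → ℂ} {n : ℕ} (hn : n ≠ 0) (h : ∀ p ∈ n.primeFactors, Q p) :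
    restr Q f n = f n := by
  unfold restr
  exact if_pos ⟨hn, h⟩

theorem restr_not {Q : ℕ → Prop} {f : ℕ → ℂ} {n p : ℕ} (hp : p ∈ n.primeFactors) (h : ¬ Q p) :
    restr Q f n = 0 := by
  unfold restr
  exact if_neg fun hh => h (hh.2 p hp)

theorem restr_norm (Q : ℕ → Prop) (f : ℕ → ℂ) (n : ℕ) : ‖restr Q f n‖ ≤ ‖f n‖ := by
  classical
  show ‖(if n ≠ 0 ∧ ∀ p ∈ n.primeFactors, Q p then f n else 0)‖ ≤ ‖f n‖
  split_ifs
  · exact le_rfl
  · rw [norm_zero]; exact norm_nonneg _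

theorem restr_mult (Q : ℕ → Prop) {f : ℕ → ℂ} (f1 : f 1 = 1)
    (hmul : ∀ m n : ℕ, 1 ≤ m → 1 ≤ n → Nat.Coprime m n → f (m * n) = f m * f n) :
    (restr Q f).IsMultiplicative := by
  rw [ArithmeticFunction.IsMultiplicative.iff_ne_zero]
  refine ⟨by rw [restr_of one_ne_zero (by simp), f1], ?_⟩
  intro m n hm hn hmn
  have hpf : (m * n).primeFactors = m.primeFactors ∪ n.primeFactors := Nat.primeFactors_mul hm hn
  by_cases h1 : ∀ p ∈ m.primeFactors, Q p
  · by_cases h2 : ∀ p ∈ n.primeFactors, Q p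
    · rw [restr_of hm h1, restr_of hn h2, restr_of (mul_ne_zero hm hn) (by
        intro p hp
        rw [hpf, mem_union] at hp
        exact hp.elim (h1 p) (h2 p))]
      exact hmul m n (Nat.one_le_iff_ne_zero.2 hm) (Nat.one_le_iff_ne_zero.2 hn) hmn
    · push Not at h2
      obtain ⟨p, hp, hQ⟩ := h2
      rw [restr_not (n := n) hp hQ, mul_zero]
      exact restr_not (p := p) (by rw [hpf]; exact mem_union_right _ hp) hQ
  · push Not at h1
    obtain ⟨p, hp, hQ⟩ := h1
    rw [restr_not (n := m) hp hQ, zero_mul]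
    exact restr_not (p := p) (by rw [hpf]; exact mem_union_left _ hp) hQ

theorem pf_of_dvd {p i b : ℕ} (hp : p.Prime) (h : b ∣ p ^ i) (hb : b ≠ 1) : p ∈ b.primeFactors := by
  obtain ⟨j, -, rfl⟩ := (Nat.dvd_prime_pow hp).1 h
  have hj : j ≠ 0 := by rintro rfl; exact hb (pow_zero p)
  rw [Nat.primeFactors_prime_pow hj hp]
  exact mem_singleton_self p

theorem pf_pow {p i q : ℕ} (hp : p.Prime) (h : q ∈ (p ^ i).primeFactors) : q = p := by
  have h1 := Nat.dvd_of_mem_primeFactors h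
  have h2 := Nat.prime_of_mem_primeFactors h
  exact (Nat.prime_dvd_prime_iff_eq h2 hp).1 (h2.dvd_of_dvd_pow h1)

theorem restr_mul (Q : ℕ → Prop) {f : ℕ → ℂ} (f1 : f 1 = 1)
    (hmul : ∀ m n : ℕ, 1 ≤ m → 1 ≤ n → Nat.Coprime m n → f (m * n) = f m * f n) :
    restr Q f * restr (fun p => ¬ Q p) f = restr (fun _ => True) f := by
  rw [ArithmeticFunction.IsMultiplicative.eq_iff_eq_on_prime_powers _
    ((restr_mult Q f1 hmul).mul (restr_mult _ f1 hmul)) _ (restr_mult _ f1 hmul)]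
  intro p i hp
  rw [ArithmeticFunction.mul_apply, restr_of (pow_ne_zero i hp.ne_zero) (fun _ _ => trivial)]
  by_cases hQ : Q p
  · rw [Finset.sum_eq_single (p ^ i, 1)]
    · show restr Q f (p ^ i) * restr (fun p => ¬ Q p) f 1 = f (p ^ i)
      rw [restr_of (n := 1) one_ne_zero (by simp), f1, mul_one]
      exact restr_of (pow_ne_zero i hp.ne_zero) fun q hq => by rw [pf_pow hp hq]; exact hQ
    · rintro ⟨a, b⟩ hab hne
      rw [Nat.mem_divisorsAntidiagonal] at hab
      have hab1 : a * b = p ^ i := hab.1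
      have hb : b ≠ 1 := by
        rintro rfl
        rw [mul_one] at hab1
        exact hne (by rw [hab1])
      have hbd : b ∣ p ^ i := ⟨a, by rw [← hab1, mul_comm]⟩
      show restr Q f a * restr (fun p => ¬ Q p) f b = 0
      rw [restr_not (Q := fun p => ¬ Q p) (n := b) (pf_of_dvd hp hbd hb) (fun h => h hQ), mul_zero]
    · intro h
      exfalso
      apply h
      rw [Nat.mem_divisorsAntidiagonal]
      exact ⟨mul_one _, pow_ne_zero i hp.ne_zero⟩
  · rw [Finset.sum_eq_single (1, p ^ i)]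
    · show restr Q f 1 * restr (fun p => ¬ Q p) f (p ^ i) = f (p ^ i)
      rw [restr_of (n := 1) one_ne_zero (by simp), f1, one_mul]
      exact restr_of (pow_ne_zero i hp.ne_zero) fun q hq => by rw [pf_pow hp hq]; exact hQ
    · rintro ⟨a, b⟩ hab hne
      rw [Nat.mem_divisorsAntidiagonal] at hab
      have hab1 : a * b = p ^ i := hab.1
      have ha : a ≠ 1 := by
        rintro rfl
        rw [one_mul] at hab1
        exact hne (by rw [hab1])
      have had : a ∣ p ^ i := ⟨b, hab1.symm⟩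
      show restr Q f a * restr (fun p => ¬ Q p) f b = 0
      rw [restr_not (n := a) (pf_of_dvd hp had ha) hQ, zero_mul]
    · intro h
      exfalso
      apply h
      rw [Nat.mem_divisorsAntidiagonal]
      exact ⟨one_mul _, pow_ne_zero i hp.ne_zero⟩

/-- the partial sums of the part of `f` free of the primes with `Q` -/
theorem sum_restr (Q : ℕ → Prop) {f : ℕ → ℂ} (f1 : f 1 = 1)
    (hmul : ∀ m n : ℕ, 1 ≤ m → 1 ≤ n → Nat.Coprime m n → f (m * n) = f m * f n) (N : ℕ) (hN : 1 ≤ N) :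
    ∑ n ∈ Ioc 0 N, restr (fun p => ¬ Q p) f n =
      ∑ n ∈ Ioc 0 N, f n - ∑ d ∈ Ioc 1 N, restr Q f d * ∑ m ∈ Ioc 0 (N / d), restr (fun p => ¬ Q p) f m := by
  have h := ArithmeticFunction.sum_Ioc_mul_eq_sum_sum (restr Q f) (restr (fun p => ¬ Q p) f) N
  rw [restr_mul Q f1 hmul] at h
  have h1 : ∑ n ∈ Ioc 0 N, restr (fun _ => True) f n = ∑ n ∈ Ioc 0 N, f n := by
    apply Finset.sum_congr rfl
    intro n hn
    rw [mem_Ioc] at hn
    exact restr_of (by omega) fun _ _ => trivial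
  have h2 : Ioc 0 N = insert 1 (Ioc 1 N) := by
    ext n
    simp only [mem_Ioc, mem_insert]
    omega
  have h3 : ∑ d ∈ Ioc 0 N, restr Q f d * ∑ m ∈ Ioc 0 (N / d), restr (fun p => ¬ Q p) f m =
      ∑ n ∈ Ioc 0 N, restr (fun p => ¬ Q p) f n +
      ∑ d ∈ Ioc 1 N, restr Q f d * ∑ m ∈ Ioc 0 (N / d), restr (fun p => ¬ Q p) f m := by
    rw [h2, Finset.sum_insert (by simp), ← h2, Nat.div_one, restr_of (n := 1) one_ne_zero (by simp), f1,
      one_mul]
  rw [h1, h3] at h
  rw [h]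
  ring

end Pool.Agent.X301.MO
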