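import Pool.Agent.X301.MO.A
import Pool.Agent.X301.MO.D

/-!
# The primes with large values at their powers are sparse
-/

set_option autoImplicit false

open Finset Filter Topology

namespace Pool.Agent.X301.MO

theorem rpow_le_one_add_sqrt {β v : ℝ} (hβ : 0 ≤ β) (hβ2 : β ≤ 1 / 2) (hv : 0 ≤ v) :
    v ^ β ≤ 1 + Real.sqrt v := by
  rcases le_total v 1 with h | h
  · have := Real.rpow_le_one hv h hβ
    linarith [Real.sqrt_nonneg v]
  · have h1 : v ^ β ≤ v ^ (1 / 2 : ℝ) := Real.rpow_le_rpow_of_exponent_le h hβ2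
    rw [← Real.sqrt_eq_rpow] at h1
    linarith

theorem hh_le {β : ℝ} (hβ : 0 ≤ β) (hβ2 : β ≤ 1 / 2) {x : ℝ} (hx : 1 ≤ x) :
    hh β x ≤ Real.exp 5 * x ^ (1 / 16 : ℝ) := by
  have hu : 0 ≤ Real.log x := Real.log_nonneg hx
  have h1 := rpow_le_one_add_sqrt hβ hβ2 hu
  have h2 : Real.sqrt (Real.log x) ≤ Real.log x / 16 + 4 := by
    rw [Real.sqrt_le_left (by linarith)]
    nlinarith [sq_nonneg (Real.log x / 16 - 4)]
  have e : x ^ (1 / 16 : ℝ) = Real.exp (Real.log x * (1 / 16)) :=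
    Real.rpow_def_of_pos (by linarith) _
  unfold hh
  rw [e, ← Real.exp_add]
  apply Real.exp_le_exp.2
  linarith

/-- multiplicativity for prime powers -/
theorem map_prod_pow {f : ℕ → ℂ} (f1 : f 1 = 1)
    (hmul : ∀ m n : ℕ, 1 ≤ m → 1 ≤ n → Nat.Coprime m n → f (m * n) = f m * f n) (kk : ℕ → ℕ)
    (A : Finset ℕ) (hA : ∀ p ∈ A, p.Prime) :
    f (∏ p ∈ A, p ^ kk p) = ∏ p ∈ A, f (p ^ kk p) := by
  classical
  induction A using Finset.induction_on with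
  | empty => simpa using f1
  | insert a s ha ih =>
    have hap : a.Prime := hA a (mem_insert_self _ _)
    have hs : ∀ p ∈ s, p.Prime := fun p hp => hA p (mem_insert_of_mem hp)
    rw [Finset.prod_insert ha, Finset.prod_insert ha, hmul _ _ ?_ ?_ ?_, ih hs]
    · exact Nat.one_le_iff_ne_zero.2 (pow_ne_zero _ hap.ne_zero)
    · exact Nat.one_le_iff_ne_zero.2 (Finset.prod_ne_zero_iff.2 fun p hp => pow_ne_zero _ (hs p hp).ne_zero)
    · apply Nat.Coprime.prod_right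
      intro p hp
      apply Nat.Coprime.pow
      rw [Nat.coprime_primes hap (hs p hp)]
      rintro rfl
      exact ha hp

/-- primes with a large value at some power -/
def Large (f : ℕ → ℂ) (p : ℕ) : Prop :=
  p.Prime ∧ ∃ k : ℕ, 1 ≤ k ∧ (2 : ℝ) ^ k < ((p ^ k : ℕ) : ℝ) * ‖f (p ^ k)‖

theorem large_count {f : ℕ → ℂ} (f1 : f 1 = 1)
    (hmul : ∀ m n : ℕ, 1 ≤ m → 1 ≤ n → Nat.Coprime m n → f (m * n) = f m * f n) {M β : ℝ}
    (hβ : 0 ≤ β) (hβ2 : β ≤ 1 / 2) (hM : ∀ n : ℕ, 1 ≤ n → (n : ℝ) * ‖f n‖ ≤ M * hh β n) :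
    ∃ D : ℝ, 0 ≤ D ∧ ∀ (A : Finset ℕ) (X : ℕ), 1 ≤ X → (∀ p ∈ A, Large f p ∧ p ≤ X) →
      (A.card : ℝ) ≤ D * (X : ℝ) ^ (1 / 16 : ℝ) := by
  classical
  have hl2 : 0 < Real.log 2 := Real.log_pos (by norm_num)
  have hMpos : 0 < M := by
    have h := hM 1 le_rfl
    rw [f1, norm_one] at h
    by_contra hcon
    have h1 : 0 < hh β ((1 : ℕ) : ℝ) := Real.exp_pos _
    have : M * hh β ((1 : ℕ) : ℝ) ≤ 0 := mul_nonpos_of_nonpos_of_nonneg (not_lt.1 hcon) h1.le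
    norm_num at h
    norm_num at this
    linarith
  refine ⟨2 / Real.log 2 * (|Real.log M| + 1 + 16 / (2 * Real.log 2)), by positivity, ?_⟩
  intro A X hX hA
  have hX1 : (1 : ℝ) ≤ X := by exact_mod_cast hX
  have hlX : 0 ≤ Real.log X := Real.log_nonneg hX1
  have hXr : 1 ≤ (X : ℝ) ^ (1 / 16 : ℝ) := Real.one_le_rpow hX1 (by norm_num)
  have hlogX : Real.log X ≤ 16 * (X : ℝ) ^ (1 / 16 : ℝ) := by
    have := Real.log_le_rpow_div (x := (X : ℝ)) (by linarith) (ε := 1 / 16) (by norm_num)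
    refine this.trans (le_of_eq ?_)
    field_simp
  have hex : ∀ p : ℕ, ∃ k : ℕ, p ∈ A → 1 ≤ k ∧ (2 : ℝ) ^ k < ((p ^ k : ℕ) : ℝ) * ‖f (p ^ k)‖ := by
    intro p
    by_cases hp : p ∈ A
    · obtain ⟨k, hk⟩ := (hA p hp).1.2
      exact ⟨k, fun _ => hk⟩
    · exact ⟨0, fun h => absurd h hp⟩
  choose kk hkk using hex
  set n : ℕ := ∏ p ∈ A, p ^ kk p with hn
  set T : ℕ := ∑ p ∈ A, kk p with hT
  have hcard : (A.card : ℝ) ≤ T := by
    rw [hT]
    push_cast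
    calc (A.card : ℝ) = ∑ p ∈ A, (1 : ℝ) := by simp
      _ ≤ ∑ p ∈ A, (kk p : ℝ) := Finset.sum_le_sum fun p hp => by exact_mod_cast (hkk p hp).1
  have hn1 : 1 ≤ n := Nat.one_le_iff_ne_zero.2
    (Finset.prod_ne_zero_iff.2 fun p hp => pow_ne_zero _ (hA p hp).1.1.ne_zero)
  have h1n : (1 : ℝ) ≤ n := by exact_mod_cast hn1
  have hnX : (n : ℝ) ≤ (X : ℝ) ^ T := by
    have : n ≤ X ^ T := by
      rw [hn, hT, ← Finset.prod_pow_eq_pow_sum]
      exact Finset.prod_le_prod' fun p hp => Nat.pow_le_pow_left (hA p hp).2 _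
    exact_mod_cast this
  have hlogn : Real.log n ≤ T * Real.log X := by
    rw [← Real.log_pow]
    exact Real.log_le_log (by linarith) hnX
  have hlogn0 : 0 ≤ Real.log n := Real.log_nonneg h1n
  have hprod : (2 : ℝ) ^ T ≤ (n : ℝ) * ‖f n‖ := by
    have e1 : (n : ℝ) * ‖f n‖ = ∏ p ∈ A, (((p ^ kk p : ℕ) : ℝ) * ‖f (p ^ kk p)‖) := by
      rw [Finset.prod_mul_distrib, hn, map_prod_pow f1 hmul kk A fun p hp => (hA p hp).1.1, norm_prod]
      push_cast
      rfl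
    rw [e1, hT, ← Finset.prod_pow_eq_pow_sum]
    exact Finset.prod_le_prod (fun p _ => by positivity) fun p hp => (hkk p hp).2.le
  have hmain : T * Real.log 2 ≤ |Real.log M| + 1 + Real.sqrt (T * Real.log X) := by
    have h1 : (2 : ℝ) ^ T ≤ M * hh β n := hprod.trans (hM n hn1)
    have h2 := Real.log_le_log (by positivity) h1
    have hhp : hh β (n : ℝ) ≠ 0 := (Real.exp_pos _).ne'
    rw [Real.log_pow, Real.log_mul hMpos.ne' hhp] at h2
    have h3 : Real.log (hh β n) = Real.log n ^ β := by unfold hh; rw [Real.log_exp]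
    rw [h3] at h2
    have h4 := rpow_le_one_add_sqrt hβ hβ2 hlogn0
    have h5 : Real.sqrt (Real.log n) ≤ Real.sqrt (T * Real.log X) := Real.sqrt_le_sqrt hlogn
    have h6 := le_abs_self (Real.log M)
    linarith
  have hsqrt : Real.sqrt (T * Real.log X) ≤ T * Real.log 2 / 2 + Real.log X / (2 * Real.log 2) := by
    rw [Real.sqrt_le_left (by positivity)]
    have e : (T : ℝ) * Real.log X = (T * Real.log 2) * (Real.log X / Real.log 2) := by field_simp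
    have e2 : Real.log X / (2 * Real.log 2) = (Real.log X / Real.log 2) / 2 := by field_simp
    rw [e, e2]
    nlinarith [sq_nonneg (T * Real.log 2 - Real.log X / Real.log 2)]
  have hT2 : (T : ℝ) ≤ 2 / Real.log 2 * (|Real.log M| + 1 + Real.log X / (2 * Real.log 2)) := by
    have h7 : (T : ℝ) * Real.log 2 / 2 ≤ |Real.log M| + 1 + Real.log X / (2 * Real.log 2) := by linarith
    rw [div_mul_eq_mul_div, le_div_iff₀ hl2]
    linarith
  refine hcard.trans (hT2.trans ?_)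
  rw [mul_assoc]
  apply mul_le_mul_of_nonneg_left _ (by positivity)
  have h8 : Real.log X / (2 * Real.log 2) ≤ 16 / (2 * Real.log 2) * (X : ℝ) ^ (1 / 16 : ℝ) := by
    rw [div_mul_eq_mul_div]
    exact div_le_div_of_nonneg_right hlogX (by positivity)
  have h9 : |Real.log M| + 1 ≤ (|Real.log M| + 1) * (X : ℝ) ^ (1 / 16 : ℝ) :=
    le_mul_of_one_le_right (by positivity) hXr
  rw [add_mul]
  linarith

/-- dyadic summation over the integers -/
theorem summable_dyadic_nat (e : ℕ → ℝ) (he : ∀ p, 0 ≤ e p) (he0 : e 0 = 0) {D : ℝ} (hD0 : 0 ≤ D)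
    (hD : ∀ (A : Finset ℕ) (X : ℕ), 1 ≤ X → (∀ p ∈ A, p ≤ X) →
      ∑ p ∈ A, e p ≤ D * (X : ℝ) ^ (1 / 16 : ℝ)) :
    Summable fun p : ℕ => e p * (p : ℝ) ^ (-(1 / 8) : ℝ) := by
  classical
  set r : ℝ := (2 : ℝ) ^ (-(1 / 16) : ℝ) with hr
  have hr0 : 0 < r := Real.rpow_pos_of_pos (by norm_num) _
  have hr1 : r < 1 := Real.rpow_lt_one_of_one_lt_of_neg (by norm_num) (by norm_num)
  have hblock : ∀ (A : Finset ℕ) (j : ℕ), (∀ p ∈ A, Nat.log 2 p = j) →
      ∑ p ∈ A, e p * (p : ℝ) ^ (-(1 / 8) : ℝ) ≤ (D * 2) * r ^ j := by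
    intro A j hA
    have h1 : ∀ p ∈ A, e p * (p : ℝ) ^ (-(1 / 8) : ℝ) ≤ ((2 : ℝ) ^ (-(1 / 8) : ℝ)) ^ j * e p := by
      intro p hp
      rcases Nat.eq_zero_or_pos p with h0 | h0
      · rw [h0, he0]; simp
      have h2 : 2 ^ j ≤ p := by
        rw [← hA p hp]
        exact Nat.pow_log_le_self 2 (by omega)
      have h3 : ((2 : ℝ) ^ j) ≤ (p : ℝ) := by exact_mod_cast h2
      have h4 : (p : ℝ) ^ (-(1 / 8) : ℝ) ≤ ((2 : ℝ) ^ j) ^ (-(1 / 8) : ℝ) :=
        Real.rpow_le_rpow_of_nonpos (by positivity) h3 (by norm_num)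
      have h6 : ((2 : ℝ) ^ j) ^ (-(1 / 8) : ℝ) = ((2 : ℝ) ^ (-(1 / 8) : ℝ)) ^ j := by
        rw [← Real.rpow_natCast, ← Real.rpow_natCast, ← Real.rpow_mul (by norm_num),
          ← Real.rpow_mul (by norm_num), mul_comm]
      rw [← h6, mul_comm]
      exact mul_le_mul_of_nonneg_right h4 (he p)
    refine (Finset.sum_le_sum h1).trans ?_
    rw [← Finset.mul_sum]
    have h7 : ∑ p ∈ A, e p ≤ D * ((2 ^ (j + 1) : ℕ) : ℝ) ^ (1 / 16 : ℝ) := by
      apply hD A (2 ^ (j + 1)) Nat.one_le_two_pow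
      intro p hp
      rw [← hA p hp]
      exact (Nat.lt_pow_succ_log_self (by norm_num) _).le
    refine (mul_le_mul_of_nonneg_left h7 (by positivity)).trans ?_
    have h8 : (((2 ^ (j + 1) : ℕ) : ℝ)) ^ (1 / 16 : ℝ) = (2 : ℝ) ^ (1 / 16 : ℝ) * ((2 : ℝ) ^ (1 / 16 : ℝ)) ^ j := by
      push_cast
      rw [pow_succ, Real.mul_rpow (by positivity) (by norm_num), mul_comm]
      congr 1
      rw [← Real.rpow_natCast, ← Real.rpow_natCast, ← Real.rpow_mul (by norm_num),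
        ← Real.rpow_mul (by norm_num), mul_comm]
    have h9 : r ^ j = ((2 : ℝ) ^ (1 / 16 : ℝ)) ^ j * ((2 : ℝ) ^ (-(1 / 8) : ℝ)) ^ j := by
      rw [← mul_pow, ← Real.rpow_add (by norm_num), hr]
      norm_num
    have h10 : (2 : ℝ) ^ (1 / 16 : ℝ) ≤ 2 := by
      calc (2 : ℝ) ^ (1 / 16 : ℝ) ≤ 2 ^ (1 : ℝ) :=
            Real.rpow_le_rpow_of_exponent_le (by norm_num) (by norm_num)
        _ = 2 := Real.rpow_one 2
    rw [h8]
    calc ((2 : ℝ) ^ (-(1 / 8) : ℝ)) ^ j * (D * ((2 : ℝ) ^ (1 / 16 : ℝ) * ((2 : ℝ) ^ (1 / 16 : ℝ)) ^ j))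
        = (D * (2 : ℝ) ^ (1 / 16 : ℝ)) * r ^ j := by rw [h9]; ring
      _ ≤ (D * 2) * r ^ j := by gcongr
  apply summable_of_sum_le (c := (D * 2) * (1 - r)⁻¹)
    (fun p => mul_nonneg (he p) (Real.rpow_nonneg (Nat.cast_nonneg _) _))
  intro u
  set J : ℕ := u.sup (fun p => Nat.log 2 p) with hJ
  have hmaps : ∀ p ∈ u, Nat.log 2 p ∈ range (J + 1) := by
    intro p hp
    rw [Finset.mem_range, Nat.lt_succ_iff, hJ]
    exact Finset.le_sup (f := fun p : ℕ => Nat.log 2 p) hp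
  rw [← Finset.sum_fiberwise_of_maps_to hmaps]
  calc ∑ j ∈ range (J + 1), ∑ p ∈ u.filter (fun p : ℕ => Nat.log 2 p = j), e p * (p : ℝ) ^ (-(1 / 8) : ℝ)
      ≤ ∑ j ∈ range (J + 1), (D * 2) * r ^ j := by
        apply Finset.sum_le_sum
        intro j _
        apply hblock
        intro p hp
        exact (Finset.mem_filter.1 hp).2
    _ = (D * 2) * ∑ j ∈ range (J + 1), r ^ j := by rw [Finset.mul_sum]
    _ ≤ (D * 2) * (1 - r)⁻¹ := by
        apply mul_le_mul_of_nonneg_left _ (by positivity)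
        have hs := summable_geometric_of_lt_one hr0.le hr1
        rw [← tsum_geometric_of_lt_one hr0.le hr1]
        exact hs.sum_le_tsum _ (fun i _ => by positivity)

/-- the large primes beyond `y` contribute little -/
theorem large_tail {f : ℕ → ℂ} (f1 : f 1 = 1)
    (hmul : ∀ m n : ℕ, 1 ≤ m → 1 ≤ n → Nat.Coprime m n → f (m * n) = f m * f n) {M β : ℝ}
    (hβ : 0 ≤ β) (hβ2 : β ≤ 1 / 2) (hM : ∀ n : ℕ, 1 ≤ n → (n : ℝ) * ‖f n‖ ≤ M * hh β n) {ε : ℝ}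
    (hε : 0 < ε) : ∃ y : ℕ, ∀ A : Finset ℕ, (∀ p ∈ A, Large f p ∧ y ≤ p) →
      ∑ p ∈ A, (p : ℝ) ^ (-(1 / 8) : ℝ) ≤ ε := by
  classical
  obtain ⟨D, hD0, hD⟩ := large_count f1 hmul hβ hβ2 hM
  have hs := summable_dyadic_nat (fun p => if Large f p then 1 else 0) (fun p => by positivity)
    (by rw [if_neg]; exact fun h => Nat.not_prime_zero h.1) hD0 (fun A X hX hA => by
      rw [← Finset.sum_filter, Finset.sum_const, nsmul_eq_mul, mul_one]
      exact hD _ X hX fun p hp => ⟨(mem_filter.1 hp).2, hA p (mem_filter.1 hp).1⟩)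
  rw [summable_iff_vanishing_norm] at hs
  obtain ⟨s, hs⟩ := hs ε hε
  refine ⟨s.sup id + 1, fun A hA => ?_⟩
  have hdis : Disjoint A s := by
    rw [Finset.disjoint_left]
    intro p hp hps
    have h1 := (hA p hp).2
    have h2 : p ≤ s.sup id := Finset.le_sup (f := id) hps
    omega
  have h := hs A hdis
  have e : ∑ p ∈ A, (if Large f p then (1 : ℝ) else 0) * (p : ℝ) ^ (-(1 / 8) : ℝ) =
      ∑ p ∈ A, (p : ℝ) ^ (-(1 / 8) : ℝ) :=
    Finset.sum_congr rfl fun p hp => by rw [if_pos (hA p hp).1, one_mul]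
  rw [e] at h
  exact (le_abs_self _).trans h.le

end Pool.Agent.X301.MO
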