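import Pool.Agent.X301.MO.B
import Pool.Agent.X301.MO.E

/-!
# Removing the large primes
-/

set_option autoImplicit false

open Finset Filter Topology

namespace Pool.Agent.X301.MO

/-- `n ↦ n ^ (-1/8)` -/
noncomputable def phi : ℕ →* ℝ where
  toFun n := (n : ℝ) ^ (-(1 / 8) : ℝ)
  map_one' := by simp
  map_mul' m n := by
    push_cast
    exact Real.mul_rpow (Nat.cast_nonneg _) (Nat.cast_nonneg _)

theorem phi_nonneg (n : ℕ) : 0 ≤ phi n := Real.rpow_nonneg (Nat.cast_nonneg _) _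

theorem phi_lt_one {p : ℕ} (hp : p.Prime) : ‖phi p‖ < 1 := by
  rw [Real.norm_of_nonneg (phi_nonneg p)]
  exact Real.rpow_lt_one_of_one_lt_of_neg (by exact_mod_cast hp.one_lt) (by norm_num)

/-- the sum over the integers composed of the primes of `s` -/
theorem smooth_sum (s : Finset ℕ) (hs : ∀ p ∈ s, p.Prime) {ε : ℝ} (hε : ε ≤ 1 / 4)
    (hsum : ∑ p ∈ s, phi p ≤ ε) (U : Finset ℕ) (hU : ∀ d ∈ U, 1 < d ∧ ∀ p ∈ d.primeFactors, p ∈ s) :
    ∑ d ∈ U, phi d ≤ 4 * ε := by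
  classical
  have h0 : 0 ≤ ∑ p ∈ s, phi p := Finset.sum_nonneg fun p _ => phi_nonneg p
  have hH := (EulerProduct.summable_and_hasSum_factoredNumbers_prod_filter_prime_geometric
    (f := phi) (fun {p} hp => phi_lt_one hp) s).2
  have hH2 : HasSum ((Nat.factoredNumbers s).indicator (fun n => phi n))
      (∏ p ∈ s with p.Prime, (1 - phi p)⁻¹) := by
    rw [← hasSum_subtype_iff_indicator]
    exact hH
  have h1U : 1 ∉ U := fun h => absurd (hU 1 h).1 (lt_irrefl 1)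
  have hmem : ∀ d ∈ insert 1 U, d ∈ Nat.factoredNumbers s := by
    intro d hd
    rw [mem_insert] at hd
    rcases hd with rfl | hd
    · rw [Nat.mem_factoredNumbers]
      exact ⟨one_ne_zero, by simp⟩
    · rw [Nat.mem_factoredNumbers]
      refine ⟨by have := (hU d hd).1; omega, fun p hp => ?_⟩
      exact (hU d hd).2 p (by rwa [Nat.mem_primeFactors_iff_mem_primeFactorsList])
  have hle : ∑ d ∈ insert 1 U, phi d ≤ ∏ p ∈ s with p.Prime, (1 - phi p)⁻¹ := by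
    have h2 := sum_le_hasSum (insert 1 U) (fun n _ => Set.indicator_nonneg (fun n _ => phi_nonneg n) n) hH2
    refine le_trans (le_of_eq ?_) h2
    exact Finset.sum_congr rfl fun d hd => by rw [Set.indicator_of_mem (hmem d hd)]
  rw [Finset.sum_insert h1U, map_one] at hle
  have hfil : s.filter (fun p => p.Prime) = s := Finset.filter_true_of_mem hs
  rw [hfil] at hle
  have hp1 : ∀ p ∈ s, phi p ≤ 1 / 4 := fun p hp =>
    (Finset.single_le_sum (f := fun p => phi p) (fun p _ => phi_nonneg p) hp).trans (hsum.trans hε)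
  have hprod : ∏ p ∈ s, (1 - phi p)⁻¹ ≤ Real.exp (2 * ∑ p ∈ s, phi p) := by
    rw [Finset.mul_sum, Real.exp_sum]
    apply Finset.prod_le_prod
    · intro p hp
      have := hp1 p hp
      rw [inv_nonneg]
      linarith
    · intro p hp
      have h3 := hp1 p hp
      have h4 := phi_nonneg p
      have h5 : (1 - phi p)⁻¹ ≤ 1 + 2 * phi p := by
        rw [inv_le_iff_one_le_mul₀ (by linarith)]
        nlinarith
      linarith [Real.add_one_le_exp (2 * phi p)]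
  have hexp : Real.exp (2 * ∑ p ∈ s, phi p) ≤ 1 + 4 * ε := by
    have h6 : 2 * ∑ p ∈ s, phi p ≤ 1 / 2 := by linarith
    have h7 := Real.exp_bound_div_one_sub_of_interval (x := 2 * ∑ p ∈ s, phi p) (by positivity) (by linarith)
    refine h7.trans ?_
    rw [div_le_iff₀ (by linarith)]
    nlinarith
  linarith

/-- the large primes beyond `y` -/
def Bad (f : ℕ → ℂ) (y p : ℕ) : Prop := Large f p ∧ y ≤ p

/-- the part of `f` with the large primes beyond `y` removed -/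
noncomputable def good (f : ℕ → ℂ) (y : ℕ) : ℕ → ℂ := fun n => restr (fun p => ¬ Bad f y p) f n

/-- the weighted sum over the integers composed of large primes beyond `y` -/
theorem weight {f : ℕ → ℂ} (f1 : f 1 = 1)
    (hmul : ∀ m n : ℕ, 1 ≤ m → 1 ≤ n → Nat.Coprime m n → f (m * n) = f m * f n) {M β : ℝ}
    (hβ : 0 ≤ β) (hβ2 : β ≤ 1 / 2) (hM0 : 0 < M) (hM : ∀ n : ℕ, 1 ≤ n → (n : ℝ) * ‖f n‖ ≤ M * hh β n) :
    ∃ y : ℕ, ∀ N : ℕ, ∑ d ∈ Ioc 1 N, ‖restr (Bad f y) f d‖ * (d : ℝ) ^ (3 / 4 : ℝ) ≤ 1 / 4 := by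
  classical
  set M' : ℝ := M * Real.exp 5 + 1 with hM'
  have hM'0 : 0 < M' := by positivity
  have hM'1 : 1 ≤ M' := by
    have : 0 < M * Real.exp 5 := by positivity
    linarith
  obtain ⟨y, hy⟩ := large_tail f1 hmul hβ hβ2 hM (ε := 1 / (16 * M')) (by positivity)
  refine ⟨y, fun N => ?_⟩
  set U : Finset ℕ := (Ioc 1 N).filter (fun d => ∀ p ∈ d.primeFactors, Bad f y p) with hU
  set s : Finset ℕ := (Ioc 1 N).filter (fun p => Bad f y p) with hs
  have hε : 1 / (16 * M') ≤ 1 / 4 := by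
    apply one_div_le_one_div_of_le (by norm_num)
    linarith
  have hsm := smooth_sum s (fun p hp => ((mem_filter.1 hp).2).1.1) hε
    (hy s fun p hp => (mem_filter.1 hp).2) U (fun d hd => by
      rw [hU, mem_filter, mem_Ioc] at hd
      refine ⟨hd.1.1, fun p hp => ?_⟩
      rw [hs, mem_filter, mem_Ioc]
      have hpp := Nat.prime_of_mem_primeFactors hp
      have hpd := Nat.le_of_dvd (by omega) (Nat.dvd_of_mem_primeFactors hp)
      exact ⟨⟨hpp.one_lt, by omega⟩, hd.2 p hp⟩)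
  have hterm : ∀ d ∈ Ioc 1 N, ‖restr (Bad f y) f d‖ * (d : ℝ) ^ (3 / 4 : ℝ) ≤
      if (∀ p ∈ d.primeFactors, Bad f y p) then M' * phi d else 0 := by
    intro d hd
    rw [mem_Ioc] at hd
    have hd1 : (1 : ℝ) ≤ d := by exact_mod_cast hd.1.le
    have hd0 : (0 : ℝ) < d := by linarith
    split_ifs with h
    · rw [restr_of (by omega) h]
      have h1 : (d : ℝ) * ‖f d‖ ≤ M' * (d : ℝ) ^ (1 / 16 : ℝ) := by
        refine (hM d (by omega)).trans ?_
        have h2 := mul_le_mul_of_nonneg_left (hh_le hβ hβ2 hd1) hM0.le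
        have h3 : 0 ≤ (d : ℝ) ^ (1 / 16 : ℝ) := by positivity
        calc M * hh β d ≤ M * (Real.exp 5 * (d : ℝ) ^ (1 / 16 : ℝ)) := h2
          _ ≤ M' * (d : ℝ) ^ (1 / 16 : ℝ) := by rw [hM']; nlinarith
      have h4 : ‖f d‖ ≤ M' * (d : ℝ) ^ (1 / 16 : ℝ) * (d : ℝ) ^ (-1 : ℝ) := by
        rw [Real.rpow_neg_one, ← div_eq_mul_inv, le_div_iff₀ hd0]
        linarith
      calc ‖f d‖ * (d : ℝ) ^ (3 / 4 : ℝ)
          ≤ (M' * (d : ℝ) ^ (1 / 16 : ℝ) * (d : ℝ) ^ (-1 : ℝ)) * (d : ℝ) ^ (3 / 4 : ℝ) :=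
            mul_le_mul_of_nonneg_right h4 (by positivity)
        _ = M' * (d : ℝ) ^ (1 / 16 + -1 + 3 / 4 : ℝ) := by
            rw [Real.rpow_add hd0, Real.rpow_add hd0]; ring
        _ ≤ M' * phi d := by
            apply mul_le_mul_of_nonneg_left _ hM'0.le
            exact Real.rpow_le_rpow_of_exponent_le hd1 (by norm_num)
    · push Not at h
      obtain ⟨p, hp, hb⟩ := h
      rw [restr_not hp hb, norm_zero, zero_mul]
  refine (Finset.sum_le_sum hterm).trans ?_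
  rw [← Finset.sum_filter, ← Finset.mul_sum]
  calc M' * ∑ d ∈ U, phi d ≤ M' * (4 * (1 / (16 * M'))) := mul_le_mul_of_nonneg_left hsm hM'0.le
    _ = 1 / 4 := by field_simp; norm_num

/-- the partial sums of the remaining part -/
theorem good_bound {f : ℕ → ℂ} (f1 : f 1 = 1)
    (hmul : ∀ m n : ℕ, 1 ≤ m → 1 ≤ n → Nat.Coprime m n → f (m * n) = f m * f n) {y : ℕ}
    (hy : ∀ N : ℕ, ∑ d ∈ Ioc 1 N, ‖restr (Bad f y) f d‖ * (d : ℝ) ^ (3 / 4 : ℝ) ≤ 1 / 4) {C : ℝ}
    (hC : 0 ≤ C) (hS : ∀ N : ℕ, 1 ≤ N → ‖SS f N‖ ≤ C * (N : ℝ) ^ (-(3 / 4) : ℝ)) (N : ℕ) (hN : 1 ≤ N) :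
    ‖SS (good f y) N‖ ≤ (2 * C) * (N : ℝ) ^ (-(3 / 4) : ℝ) := by
  classical
  induction N using Nat.strong_induction_on with
  | _ N ih =>
    have hIcc : ∀ K : ℕ, Icc 1 K = Ioc 0 K := fun K => by ext n; simp only [mem_Icc, mem_Ioc]; omega
    have hN0 : (0 : ℝ) < N := by exact_mod_cast hN
    have h := sum_restr (Bad f y) f1 hmul N hN
    have hsum : ∀ K : ℕ, ∑ n ∈ Ioc 0 K, restr (fun p => ¬ Bad f y p) f n = SS (good f y) K := by
      intro K
      unfold SS good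
      rw [hIcc]
    have hsf : ∑ n ∈ Ioc 0 N, f n = SS f N := by unfold SS; rw [hIcc]
    simp_rw [hsum] at h
    rw [hsf] at h
    rw [h]
    have hb : ∀ d ∈ Ioc 1 N, ‖restr (Bad f y) f d * SS (good f y) (N / d)‖ ≤
        (4 * C * (N : ℝ) ^ (-(3 / 4) : ℝ)) * (‖restr (Bad f y) f d‖ * (d : ℝ) ^ (3 / 4 : ℝ)) := by
      intro d hd
      rw [mem_Ioc] at hd
      have hd0 : (0 : ℝ) < d := by exact_mod_cast (by omega : 0 < d)
      have hq1 : 1 ≤ N / d := (Nat.one_le_div_iff (by omega)).2 hd.2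
      have hqlt : N / d < N := Nat.div_lt_self (by omega) hd.1
      have hih := ih (N / d) hqlt hq1
      have hq0 : (0 : ℝ) < ((N / d : ℕ) : ℝ) := by exact_mod_cast hq1
      have hq : (N : ℝ) / (2 * d) ≤ ((N / d : ℕ) : ℝ) := by
        rw [div_le_iff₀ (by positivity)]
        have h1 : N < d * (N / d) + d := by
          have := Nat.div_add_mod N d
          have := Nat.mod_lt N (by omega : d > 0)
          omega
        have h2 : d ≤ d * (N / d) := Nat.le_mul_of_pos_right d hq1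
        have h3 : N ≤ (N / d) * (2 * d) := by nlinarith
        exact_mod_cast h3
      have hpow : ((N / d : ℕ) : ℝ) ^ (-(3 / 4) : ℝ) ≤ 2 * ((d : ℝ) ^ (3 / 4 : ℝ) * (N : ℝ) ^ (-(3 / 4) : ℝ)) := by
        have h4 : ((N / d : ℕ) : ℝ) ^ (-(3 / 4) : ℝ) ≤ ((N : ℝ) / (2 * d)) ^ (-(3 / 4) : ℝ) :=
          Real.rpow_le_rpow_of_nonpos (by positivity) hq (by norm_num)
        have h5 : ((N : ℝ) / (2 * d)) ^ (-(3 / 4) : ℝ) =
            (2 : ℝ) ^ (3 / 4 : ℝ) * (d : ℝ) ^ (3 / 4 : ℝ) * (N : ℝ) ^ (-(3 / 4) : ℝ) := by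
          rw [Real.div_rpow hN0.le (by positivity), Real.mul_rpow (by norm_num) hd0.le,
            Real.rpow_neg (by norm_num : (0 : ℝ) ≤ 2), Real.rpow_neg hd0.le]
          field_simp
        have h6 : (2 : ℝ) ^ (3 / 4 : ℝ) ≤ 2 := by
          calc (2 : ℝ) ^ (3 / 4 : ℝ) ≤ 2 ^ (1 : ℝ) :=
                Real.rpow_le_rpow_of_exponent_le (by norm_num) (by norm_num)
            _ = 2 := Real.rpow_one 2
        rw [h5] at h4
        refine h4.trans ?_
        rw [mul_assoc]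
        exact mul_le_mul_of_nonneg_right h6 (by positivity)
      rw [norm_mul]
      calc ‖restr (Bad f y) f d‖ * ‖SS (good f y) (N / d)‖
          ≤ ‖restr (Bad f y) f d‖ * ((2 * C) * ((N / d : ℕ) : ℝ) ^ (-(3 / 4) : ℝ)) :=
            mul_le_mul_of_nonneg_left hih (norm_nonneg _)
        _ ≤ ‖restr (Bad f y) f d‖ * ((2 * C) * (2 * ((d : ℝ) ^ (3 / 4 : ℝ) * (N : ℝ) ^ (-(3 / 4) : ℝ)))) := by
            gcongr
        _ = _ := by ring
    have hnn : 0 ≤ 4 * C * (N : ℝ) ^ (-(3 / 4) : ℝ) := by positivity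
    have htot : ‖∑ d ∈ Ioc 1 N, restr (Bad f y) f d * SS (good f y) (N / d)‖ ≤
        C * (N : ℝ) ^ (-(3 / 4) : ℝ) := by
      refine (norm_sum_le _ _).trans ((Finset.sum_le_sum hb).trans ?_)
      rw [← Finset.mul_sum]
      calc (4 * C * (N : ℝ) ^ (-(3 / 4) : ℝ)) *
            ∑ d ∈ Ioc 1 N, ‖restr (Bad f y) f d‖ * (d : ℝ) ^ (3 / 4 : ℝ)
          ≤ (4 * C * (N : ℝ) ^ (-(3 / 4) : ℝ)) * (1 / 4) := mul_le_mul_of_nonneg_left (hy N) hnn
        _ = _ := by ring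
    refine (norm_sub_le _ _).trans ?_
    have := hS N hN
    linarith

end Pool.Agent.X301.MO
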