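import Pool.Agent.X301.MO.F
import Pool.Agent.X301.MO.C

/-!
# Growth of the partial sums of multiplicative functions with zero-free local factors
-/

set_option autoImplicit false

open Finset Filter Topology

namespace Pool.Agent.X301.MO

theorem ex_sum' {f : ℕ → ℂ} (f1 : f 1 = 1)
    (hmul : ∀ m n : ℕ, 1 ≤ m → 1 ≤ n → Nat.Coprime m n → f (m * n) = f m * f n)
    {β B C : ℝ} (hβ : 0 ≤ β) (hB : ∀ n : ℕ, 1 ≤ n → ‖SS f n‖ ≤ B * (hh β n / n)) (hC0 : 0 ≤ C)
    (A : Finset Nat.Primes) (X : ℕ) (hC : ∀ p ∈ A, (p : ℝ) * ‖f p‖ ≤ C)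
    (hA : ∀ p ∈ A, (p : ℕ) ≤ X) :
    ∑ p ∈ A, ex f p ≤ C * (|Real.log (3 * B)| + (X * Real.log 4) ^ β) := by
  classical
  set A' : Finset Nat.Primes := A.filter (fun p => 1 < (p : ℝ) * ‖f p‖) with hA'
  have h1 : ∑ p ∈ A, ex f p = ∑ p ∈ A', ex f p := by
    rw [hA', Finset.sum_filter]
    apply Finset.sum_congr rfl
    intro p _
    split_ifs with h
    · rfl
    · unfold ex
      exact max_eq_right (by linarith [not_lt.1 h])
  have h2 : ∀ p ∈ A', ex f p ≤ C * Real.log ((p : ℝ) * ‖f p‖) := by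
    intro p hp
    rw [hA', Finset.mem_filter] at hp
    have hy : 1 < (p : ℝ) * ‖f p‖ := hp.2
    have hlog := Real.one_sub_inv_le_log_of_pos (by linarith : 0 < (p : ℝ) * ‖f p‖)
    have hlog0 : 0 ≤ Real.log ((p : ℝ) * ‖f p‖) := Real.log_nonneg hy.le
    unfold ex
    rw [max_eq_left (by linarith)]
    calc (p : ℝ) * ‖f p‖ - 1 = ((p : ℝ) * ‖f p‖) * (1 - ((p : ℝ) * ‖f p‖)⁻¹) := by
          rw [mul_sub, mul_one, mul_inv_cancel₀ (by linarith)]
      _ ≤ ((p : ℝ) * ‖f p‖) * Real.log ((p : ℝ) * ‖f p‖) :=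
          mul_le_mul_of_nonneg_left hlog (by linarith)
      _ ≤ C * Real.log ((p : ℝ) * ‖f p‖) := mul_le_mul_of_nonneg_right (hC p hp.1) hlog0
  rw [h1]
  refine (Finset.sum_le_sum h2).trans ?_
  rw [← Finset.mul_sum]
  apply mul_le_mul_of_nonneg_left _ hC0
  have hne : ∀ p ∈ A', (p : ℝ) * ‖f p‖ ≠ 0 := by
    intro p hp
    rw [hA', Finset.mem_filter] at hp
    linarith [hp.2]
  rw [← Real.log_prod hne]
  set n : ℕ := ∏ p ∈ A', (p : ℕ) with hn
  have hn1 : 1 ≤ n := Nat.one_le_iff_ne_zero.2 (Finset.prod_ne_zero_iff.2 fun p _ => p.2.ne_zero)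
  have hprod : ∏ p ∈ A', (p : ℝ) * ‖f p‖ = (n : ℝ) * ‖f n‖ := by
    rw [Finset.prod_mul_distrib, hn, map_prod f1 hmul, norm_prod]
    push_cast
    rfl
  rw [hprod]
  have hterm := term_bound f1 hβ hB n hn1
  have hn4 : n ≤ 4 ^ X := prod_le A' X fun p hp => hA p (Finset.mem_filter.1 hp).1
  have hpos : 0 < (n : ℝ) * ‖f n‖ := by
    rw [← hprod]
    apply Finset.prod_pos
    intro p hp
    rw [hA', Finset.mem_filter] at hp
    linarith [hp.2]
  have h1n : (1 : ℝ) ≤ n := by exact_mod_cast hn1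
  have hh1 : 1 ≤ hh β n := one_le_hh β h1n
  have hB0 : 0 < 3 * B := by
    by_contra hcon
    have : 3 * B * hh β n ≤ 0 := mul_nonpos_of_nonpos_of_nonneg (not_lt.1 hcon) (by linarith)
    linarith
  calc Real.log ((n : ℝ) * ‖f n‖) ≤ Real.log (3 * B * hh β n) := Real.log_le_log hpos hterm
    _ = Real.log (3 * B) + Real.log n ^ β := by
        rw [Real.log_mul hB0.ne' (by linarith)]
        unfold hh
        rw [Real.log_exp]
    _ ≤ |Real.log (3 * B)| + (X * Real.log 4) ^ β := by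
        apply add_le_add (le_abs_self _)
        apply Real.rpow_le_rpow (Real.log_nonneg h1n) _ hβ
        rw [← Real.log_pow]
        apply Real.log_le_log (by linarith)
        exact_mod_cast hn4

theorem excess_of {g : ℕ → ℂ} {β L C : ℝ} (hβ : 0 ≤ β) (hβ2 : β < 1 / 2) (hL : 0 ≤ L) (hC0 : 0 ≤ C)
    (hE : ∀ (A : Finset Nat.Primes) (X : ℕ), 1 ≤ X → (∀ p ∈ A, (p : ℕ) ≤ X) →
      ∑ p ∈ A, ex g p ≤ C * (L + (X * Real.log 4) ^ β)) :
    Summable fun p : Nat.Primes => Real.sqrt p * max (-(1 / (p : ℝ)) - (g p).re) 0 := by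
  have hlog4 : 0 < Real.log 4 := Real.log_pos (by norm_num)
  have h := summable_dyadic (fun p => ex g p) (fun p => le_max_right _ _) hβ hβ2
    (D := C * (L + Real.log 4 ^ β)) (by
      intro A X hX hA
      refine (hE A X hX hA).trans ?_
      rw [mul_assoc]
      apply mul_le_mul_of_nonneg_left _ hC0
      rw [Real.mul_rpow (Nat.cast_nonneg _) hlog4.le, add_mul, mul_comm ((X : ℝ) ^ β)]
      have hX1 : (1 : ℝ) ≤ X := by exact_mod_cast hX
      have h1 : 1 ≤ (X : ℝ) ^ β := Real.one_le_rpow hX1 hβ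
      have h2 : L ≤ L * (X : ℝ) ^ β := le_mul_of_one_le_right hL h1
      linarith)
  refine Summable.of_nonneg_of_le (fun p => ?_) (fun p => ?_) h
  · exact mul_nonneg (Real.sqrt_nonneg _) (le_max_right _ _)
  · have hp0 : (0 : ℝ) < ((p : ℕ) : ℝ) := by exact_mod_cast p.2.pos
    have hs0 : 0 < Real.sqrt (p : ℝ) := Real.sqrt_pos.2 hp0
    have hkey : max (-(1 / ((p : ℕ) : ℝ)) - (g p).re) 0 ≤ ex g p / p := by
      apply max_le
      · have h1 : -(g p).re ≤ ‖g p‖ := (neg_le_abs _).trans (Complex.abs_re_le_norm _)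
        rw [le_div_iff₀ hp0]
        have h2 : (-(1 / ((p : ℕ) : ℝ)) - (g p).re) * p = -1 + (-(g p).re) * p := by
          field_simp
          ring
        rw [h2]
        refine le_trans ?_ (le_max_left _ _)
        have := mul_le_mul_of_nonneg_right h1 hp0.le
        linarith
      · exact div_nonneg (le_max_right _ _) hp0.le
    calc Real.sqrt p * max (-(1 / (p : ℝ)) - (g p).re) 0 ≤ Real.sqrt p * (ex g p / p) :=
          mul_le_mul_of_nonneg_left hkey hs0.le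
      _ = ex g p / Real.sqrt p := by
          rw [mul_div_assoc', div_eq_div_iff hp0.ne' hs0.ne']
          have := Real.mul_self_sqrt hp0.le
          calc Real.sqrt p * ex g p * Real.sqrt p = ex g p * (Real.sqrt p * Real.sqrt p) := by ring
            _ = ex g p * p := by rw [this]

/-- the main theorem -/
theorem no_growth (f : ℕ → ℂ) (f1 : f 1 = 1)
    (hmul : ∀ m n : ℕ, 1 ≤ m → 1 ≤ n → Nat.Coprime m n → f (m * n) = f m * f n)
    (hc : ∀ p : ℕ, p.Prime → ∀ s : ℂ, -(1/2) ≤ s.re → LocalFactor f p s ≠ 0)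
    {β : ℝ} (hβ : 0 ≤ β) (hβ2 : β < 1 / 2) (B : ℝ)
    (hB : ∀ n : ℕ, 1 ≤ n → ‖SS f n‖ ≤ B * (hh β n / n)) : False := by
  classical
  have hM : ∀ n : ℕ, 1 ≤ n → (n : ℝ) * ‖f n‖ ≤ (3 * B) * hh β n := fun n hn => term_bound f1 hβ hB n hn
  have hM0 : 0 < 3 * B := by
    have h := hM 1 le_rfl
    rw [f1, norm_one] at h
    by_contra hcon
    have h1 : 0 < hh β ((1 : ℕ) : ℝ) := Real.exp_pos _
    have : 3 * B * hh β ((1 : ℕ) : ℝ) ≤ 0 := mul_nonpos_of_nonpos_of_nonneg (not_lt.1 hcon) h1.le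
    have h2 : (1 : ℝ) ≤ 0 := by
      calc (1 : ℝ) = ((1 : ℕ) : ℝ) * 1 := by norm_num
        _ ≤ _ := h
        _ ≤ 0 := this
    norm_num at h2
  have hBpos : 0 < B := by linarith
  obtain ⟨y, hy⟩ := weight f1 hmul hβ hβ2.le hM0 hM
  set g : ℕ → ℂ := good f y with hg
  have hgm : (restr (fun p => ¬ Bad f y p) f).IsMultiplicative := restr_mult _ f1 hmul
  have g1 : g 1 = 1 := hgm.1
  have hgmul : ∀ m n : ℕ, 1 ≤ m → 1 ≤ n → Nat.Coprime m n → g (m * n) = g m * g n :=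
    fun m n _ _ h => hgm.map_mul_of_coprime h
  have hgbad : ∀ p k : ℕ, p.Prime → 1 ≤ k → Bad f y p → g (p ^ k) = 0 := by
    intro p k hp hk hb
    have hmem : p ∈ (p ^ k).primeFactors := by
      rw [Nat.primeFactors_prime_pow (by omega) hp]
      exact mem_singleton_self p
    exact restr_not hmem (fun h => h hb)
  have hggood : ∀ p k : ℕ, p.Prime → ¬ Bad f y p → g (p ^ k) = f (p ^ k) := by
    intro p k hp hb
    exact restr_of (pow_ne_zero k hp.ne_zero) fun q hq => by rw [pf_pow hp hq]; exact hb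
  have hgle : ∀ n : ℕ, ‖g n‖ ≤ ‖f n‖ := fun n => restr_norm _ f n
  -- bounds for f
  set M' : ℝ := 3 * B * Real.exp 5 + 1 with hM'
  have hM'1 : 1 ≤ M' := by
    have : 0 < 3 * B * Real.exp 5 := by positivity
    linarith
  have hf16 : ∀ n : ℕ, 1 ≤ n → (n : ℝ) * ‖f n‖ ≤ M' * (n : ℝ) ^ (1 / 16 : ℝ) := by
    intro n hn
    have h1n : (1 : ℝ) ≤ n := by exact_mod_cast hn
    have h2 := mul_le_mul_of_nonneg_left (hh_le hβ hβ2.le h1n) hM0.le
    have h3 : 0 ≤ (n : ℝ) ^ (1 / 16 : ℝ) := by positivity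
    calc (n : ℝ) * ‖f n‖ ≤ 3 * B * hh β n := hM n hn
      _ ≤ 3 * B * (Real.exp 5 * (n : ℝ) ^ (1 / 16 : ℝ)) := h2
      _ ≤ M' * (n : ℝ) ^ (1 / 16 : ℝ) := by rw [hM']; nlinarith
  -- prime powers
  set C : ℝ := max 2 (M' * (y + 1)) with hCdef
  have hC2 : 2 ≤ C := le_max_left _ _
  have hCy : M' * (y + 1) ≤ C := le_max_right _ _
  have hC : ∀ p k : ℕ, p.Prime → 1 ≤ k → ‖g (p ^ k)‖ ≤ (C / p) ^ k := by
    intro p k hp hk
    have hp0 : (0 : ℝ) < p := by exact_mod_cast hp.pos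
    by_cases hb : Bad f y p
    · rw [hgbad p k hp hk hb, norm_zero]
      positivity
    · rw [hggood p k hp hb, div_pow, le_div_iff₀ (by positivity)]
      have hpk : (((p ^ k : ℕ)) : ℝ) = (p : ℝ) ^ k := by push_cast; rfl
      by_cases hL : Large f p
      · have hpy : p < y := by
          by_contra hcon
          exact hb ⟨hL, not_lt.1 hcon⟩
        have h1 := hf16 (p ^ k) (Nat.one_le_iff_ne_zero.2 (pow_ne_zero k hp.ne_zero))
        rw [hpk] at h1
        have hpk1 : (1 : ℝ) ≤ (p : ℝ) ^ k := one_le_pow₀ (by exact_mod_cast hp.one_lt.le)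
        have h2 : ((p : ℝ) ^ k) ^ (1 / 16 : ℝ) ≤ (p : ℝ) ^ k := by
          calc ((p : ℝ) ^ k) ^ (1 / 16 : ℝ) ≤ ((p : ℝ) ^ k) ^ (1 : ℝ) :=
                Real.rpow_le_rpow_of_exponent_le hpk1 (by norm_num)
            _ = (p : ℝ) ^ k := Real.rpow_one _
        have h3 : (p : ℝ) ^ k ≤ ((y : ℝ) + 1) ^ k := by
          apply pow_le_pow_left₀ hp0.le
          have : (p : ℝ) < y := by exact_mod_cast hpy
          linarith
        have h4 : M' ≤ M' ^ k := le_self_pow₀ hM'1 (by omega)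
        calc ‖f (p ^ k)‖ * (p : ℝ) ^ k = (p : ℝ) ^ k * ‖f (p ^ k)‖ := mul_comm _ _
          _ ≤ M' * ((p : ℝ) ^ k) ^ (1 / 16 : ℝ) := h1
          _ ≤ M' ^ k * ((y : ℝ) + 1) ^ k := by
              apply mul_le_mul h4 (h2.trans h3) (by positivity) (by positivity)
          _ = (M' * (y + 1)) ^ k := by rw [mul_pow]
          _ ≤ C ^ k := pow_le_pow_left₀ (by positivity) hCy k
      · have h1 : ((p ^ k : ℕ) : ℝ) * ‖f (p ^ k)‖ ≤ 2 ^ k := by
          by_contra hcon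
          exact hL ⟨hp, k, hk, not_le.1 hcon⟩
        rw [hpk] at h1
        calc ‖f (p ^ k)‖ * (p : ℝ) ^ k = (p : ℝ) ^ k * ‖f (p ^ k)‖ := mul_comm _ _
          _ ≤ 2 ^ k := h1
          _ ≤ C ^ k := pow_le_pow_left₀ (by norm_num) hC2 k
  have hC0 : 0 ≤ C := by linarith
  -- local summability
  have hLs : ∀ p : ℕ, p.Prime → Summable fun k : ℕ => ‖g (p ^ k)‖ * Real.sqrt ((p : ℝ) ^ k) := by
    intro p hp
    have hp0 : (0 : ℝ) < p := by exact_mod_cast hp.pos
    have hp1 : (1 : ℝ) < p := by exact_mod_cast hp.one_lt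
    set r : ℝ := (p : ℝ) ^ (-(7 / 16) : ℝ) with hr
    have hr0 : 0 ≤ r := by positivity
    have hr1 : r < 1 := Real.rpow_lt_one_of_one_lt_of_neg hp1 (by norm_num)
    refine Summable.of_nonneg_of_le (fun k => by positivity) (fun k => ?_)
      ((summable_geometric_of_lt_one hr0 hr1).mul_left M')
    have hpk : (((p ^ k : ℕ)) : ℝ) = (p : ℝ) ^ k := by push_cast; rfl
    have hpk0 : (0 : ℝ) < (p : ℝ) ^ k := by positivity
    have h1 := hf16 (p ^ k) (Nat.one_le_iff_ne_zero.2 (pow_ne_zero k hp.ne_zero))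
    rw [hpk] at h1
    have h2 : ‖f (p ^ k)‖ ≤ M' * ((p : ℝ) ^ k) ^ (1 / 16 : ℝ) * ((p : ℝ) ^ k) ^ (-1 : ℝ) := by
      rw [Real.rpow_neg_one, ← div_eq_mul_inv, le_div_iff₀ hpk0]
      linarith
    calc ‖g (p ^ k)‖ * Real.sqrt ((p : ℝ) ^ k)
        ≤ (M' * ((p : ℝ) ^ k) ^ (1 / 16 : ℝ) * ((p : ℝ) ^ k) ^ (-1 : ℝ)) * Real.sqrt ((p : ℝ) ^ k) :=
          mul_le_mul_of_nonneg_right ((hgle _).trans h2) (Real.sqrt_nonneg _)
      _ = M' * ((p : ℝ) ^ k) ^ (-(7 / 16) : ℝ) := by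
          rw [Real.sqrt_eq_rpow, mul_assoc, mul_assoc, ← Real.rpow_add hpk0, ← Real.rpow_add hpk0]
          norm_num
      _ = M' * r ^ k := by
          rw [hr, ← Real.rpow_natCast, ← Real.rpow_natCast, ← Real.rpow_mul hp0.le,
            ← Real.rpow_mul hp0.le, mul_comm (k : ℝ)]
  -- local factors
  have hcg : ∀ p : ℕ, p.Prime → ∀ s : ℂ, -(1/2) ≤ s.re →
      ∑' k : ℕ, g (p ^ k) * (p : ℂ) ^ (-((k : ℂ) * s)) ≠ 0 := by
    intro p hp s hs
    by_cases hb : Bad f y p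
    · rw [tsum_eq_single 0 fun k hk => by rw [hgbad p k hp (by omega) hb, zero_mul]]
      simp [g1]
    · have h := hc p hp s hs
      unfold LocalFactor at h
      have e : (fun k : ℕ => g (p ^ k) * (p : ℂ) ^ (-((k : ℂ) * s))) =
          fun k : ℕ => f (p ^ k) * (p : ℂ) ^ (-((k : ℂ) * s)) := by
        funext k
        rw [hggood p k hp hb]
      rw [e]
      exact h
  -- the excesses
  have ha : Summable fun p : Nat.Primes => Real.sqrt p * max (-(1 / (p : ℝ)) - (g p).re) 0 := by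
    apply excess_of hβ hβ2 (abs_nonneg (Real.log (3 * B))) hC0
    intro A X hX hA
    have e1 : ∑ p ∈ A, ex g p = ∑ p ∈ A.filter (fun p : Nat.Primes => ¬ Bad f y p), ex f p := by
      rw [Finset.sum_filter]
      apply Finset.sum_congr rfl
      intro p _
      by_cases h : Bad f y p
      · rw [if_neg (not_not.2 h)]
        have := hgbad p 1 p.2 le_rfl h
        rw [pow_one] at this
        unfold ex
        rw [this, norm_zero, mul_zero]
        norm_num
      · rw [if_pos h]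
        have := hggood p 1 p.2 h
        rw [pow_one] at this
        unfold ex
        rw [this]
    rw [e1]
    apply ex_sum' f1 hmul hβ hB hC0
    · intro p hp
      rw [mem_filter] at hp
      have h1 := hC p 1 p.2 le_rfl
      rw [pow_one, pow_one, ← pow_one (p : ℕ), hggood p 1 p.2 hp.2, pow_one] at h1
      have hp0 : (0 : ℝ) < ((p : ℕ) : ℝ) := by exact_mod_cast p.2.pos
      calc ((p : ℕ) : ℝ) * ‖f p‖ ≤ p * (C / p) := mul_le_mul_of_nonneg_left h1 hp0.le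
        _ = C := by field_simp
    · exact fun p hp => hA p (mem_filter.1 hp).1
  obtain ⟨K, hK⟩ := exists_nat_ge (3 * C ^ 2)
  have hb : Summable fun p : Nat.Primes =>
      (p : ℝ) * max ((g p ^ 2 - 2 * g ((p : ℕ) ^ 2)).re - (K + 1) / (p : ℝ) ^ 2) 0 := by
    have hzero : ∀ p : Nat.Primes,
        (p : ℝ) * max ((g p ^ 2 - 2 * g ((p : ℕ) ^ 2)).re - (K + 1) / (p : ℝ) ^ 2) 0 = 0 := by
      intro p
      have hp0 : (0 : ℝ) < ((p : ℕ) : ℝ) := by exact_mod_cast p.2.pos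
      have h1 := hC p 1 p.2 le_rfl
      rw [pow_one, pow_one] at h1
      have h2 := hC p 2 p.2 (by norm_num)
      have h3 : (g p ^ 2 - 2 * g ((p : ℕ) ^ 2)).re ≤ 3 * (C / p) ^ 2 := by
        refine (Complex.re_le_norm _).trans ((norm_sub_le _ _).trans ?_)
        rw [norm_pow, norm_mul, Complex.norm_ofNat]
        have h4 : ‖g p‖ ^ 2 ≤ (C / p) ^ 2 := pow_le_pow_left₀ (norm_nonneg _) h1 2
        linarith
      have h5 : 3 * (C / (p : ℝ)) ^ 2 ≤ (K + 1) / (p : ℝ) ^ 2 := by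
        rw [div_pow, mul_div_assoc']
        apply div_le_div_of_nonneg_right _ (by positivity)
        linarith
      rw [max_eq_right (by linarith), mul_zero]
    simp_rw [hzero]
    exact summable_zero
  have hK0 : (0 : ℝ) ≤ K := Nat.cast_nonneg K
  -- the partial sums of f and g
  set C1 : ℝ := B * Real.exp 5 with hC1
  have hC10 : 0 ≤ C1 := by positivity
  have hS : ∀ N : ℕ, 1 ≤ N → ‖SS f N‖ ≤ C1 * (N : ℝ) ^ (-(3 / 4) : ℝ) := by
    intro N hN
    have hN1 : (1 : ℝ) ≤ N := by exact_mod_cast hN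
    have hN0 : (0 : ℝ) < N := by linarith
    have h2 := hh_le hβ hβ2.le hN1
    calc ‖SS f N‖ ≤ B * (hh β N / N) := hB N hN
      _ ≤ B * ((Real.exp 5 * (N : ℝ) ^ (1 / 16 : ℝ)) / N) := by gcongr
      _ = C1 * ((N : ℝ) ^ (1 / 16 : ℝ) * (N : ℝ) ^ (-1 : ℝ)) := by
          rw [Real.rpow_neg_one, hC1]; ring
      _ = C1 * (N : ℝ) ^ (1 / 16 + -1 : ℝ) := by rw [Real.rpow_add hN0]
      _ ≤ C1 * (N : ℝ) ^ (-(3 / 4) : ℝ) := by
          apply mul_le_mul_of_nonneg_left _ hC10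
          exact Real.rpow_le_rpow_of_exponent_le hN1 (by norm_num)
  set U : ℝ := max 1 (64 * C1 + 1) with hU
  obtain ⟨N, hNM, hN1, hN⟩ := Pool.H232R3.mo_main g g1
    (fun m n hm hn hmn => hgmul m n hm hn hmn) C K hC ha hb hLs hcg 1
    (by rw [div_lt_one (by linarith)]; linarith) 1 ⌈Real.exp U⌉₊
  have hNb := good_bound f1 hmul hy hC10 hS N hN1.le
  have hNpos : (0 : ℝ) < N := by exact_mod_cast (by omega : 0 < N)
  have hNU : Real.exp U ≤ N := (Nat.le_ceil _).trans (by exact_mod_cast hNM)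
  set u : ℝ := Real.log N with hu
  have hUu : U ≤ u := by
    rw [hu, Real.le_log_iff_exp_le hNpos]
    exact hNU
  have hu1 : 1 ≤ u := (le_max_left _ _).trans hUu
  have huC : 64 * C1 + 1 ≤ u := (le_max_right _ _).trans hUu
  have hu0 : 0 < u := by linarith
  have h1 : Real.exp (-(u / 2)) * u⁻¹ ≤ (2 * C1) * Real.exp (-(3 * u / 4)) := by
    have h2 : (1 : ℝ) * ((N : ℝ) ^ (-(1/2) : ℝ) * u ^ (-1 : ℝ)) ≤ (2 * C1) * (N : ℝ) ^ (-(3 / 4) : ℝ) :=
      hN.trans hNb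
    have h3 : (N : ℝ) ^ (-(1/2) : ℝ) = Real.exp (-(u / 2)) := by
      rw [Real.rpow_def_of_pos hNpos, ← hu]
      congr 1
      ring
    have h4 : (N : ℝ) ^ (-(3/4) : ℝ) = Real.exp (-(3 * u / 4)) := by
      rw [Real.rpow_def_of_pos hNpos, ← hu]
      congr 1
      ring
    rw [h3, h4, one_mul, Real.rpow_neg_one] at h2
    exact h2
  have h5 : Real.exp (u / 4) ≤ 2 * C1 * u := by
    have h8 : Real.exp (-(u / 2)) ≤ 2 * C1 * Real.exp (-(3 * u / 4)) * u := by
      rw [← div_eq_mul_inv, div_le_iff₀ hu0] at h1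
      exact h1
    have h9 : Real.exp (u / 4) = Real.exp (-(u / 2)) * Real.exp (3 * u / 4) := by
      rw [← Real.exp_add]; congr 1; ring
    rw [h9]
    calc Real.exp (-(u / 2)) * Real.exp (3 * u / 4)
        ≤ (2 * C1 * Real.exp (-(3 * u / 4)) * u) * Real.exp (3 * u / 4) :=
          mul_le_mul_of_nonneg_right h8 (Real.exp_pos _).le
      _ = 2 * C1 * u * (Real.exp (-(3 * u / 4)) * Real.exp (3 * u / 4)) := by ring
      _ = 2 * C1 * u := by
          rw [← Real.exp_add, show -(3 * u / 4) + 3 * u / 4 = 0 by ring, Real.exp_zero, mul_one]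
  have h10 := Real.quadratic_le_exp_of_nonneg (x := u / 4) (by linarith)
  nlinarith

end Pool.Agent.X301.MO
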